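import Mathlib.Combinatorics.SimpleGraph.Metric
import Mathlib.Combinatorics.SimpleGraph.Paths
import Mathlib.Tactic

/-!
# Bridged graphs: isometric cycles, the triangle and interval neighbourhood conditions
-/

namespace Pool.Agent.Q255.Bridged

open SimpleGraph

variable {V : Type*} {G : SimpleGraph V}

theorem lip (G : SimpleGraph V) {y z : V} (h : G.Adj y z) (x : V) :
    G.dist x z ≤ G.dist x y + 1 := by
  have := h.reachable.dist_triangle_right x
  rwa [dist_eq_one_iff_adj.2 h] at this

theorem lip_up {c : ℕ → V} (hc : ∀ k, G.Adj (c k) (c (k + 1))) (x : V) (k : ℕ) :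
    ∀ j, G.dist x (c (k + j)) ≤ G.dist x (c k) + j
  | 0 => by simp
  | j + 1 => by
    have h1 := lip_up hc x k j
    have h2 := lip G (hc (k + j)) x
    have h3 : c (k + (j + 1)) = c (k + j + 1) := rfl
    rw [h3]
    omega

theorem lip_down {c : ℕ → V} (hc : ∀ k, G.Adj (c k) (c (k + 1))) (x : V) (k : ℕ) :
    ∀ j, G.dist x (c k) ≤ G.dist x (c (k + j)) + j
  | 0 => by simp
  | j + 1 => by
    have h1 := lip_down hc x k j
    have h2 := lip G (hc (k + j)).symm x
    have h3 : c (k + (j + 1)) = c (k + j + 1) := rfl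
    rw [h3]
    omega

theorem exists_parent {z v : V} {k : ℕ} (h : G.dist z v = k + 1) :
    ∃ u, G.Adj u v ∧ G.dist z u = k := by
  obtain ⟨p, hp⟩ := exists_walk_of_dist_ne_zero (G := G) (u := z) (v := v) (by omega)
  rw [h] at hp
  have h1 := p.adj_getVert_succ (i := k) (by omega)
  have h2 : p.getVert (k + 1) = v := by rw [← hp]; exact p.getVert_length
  rw [h2] at h1
  refine ⟨p.getVert k, h1, ?_⟩
  have h3 : G.dist z (p.getVert k) ≤ k := by
    refine (dist_le (p.take k)).trans ?_
    rw [Walk.take_length]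
    exact min_le_left _ _
  have h4 := lip G h1 z
  omega

theorem eq_of_dist_zero {z v : V} (h : G.dist z v = 0) (hr : G.Reachable z v) : z = v :=
  hr.dist_eq_zero_iff.1 h

/-- Isometric closed walks, as periodic sequences. -/
structure IsoCyc (G : SimpleGraph V) (n : ℕ) (c : ℕ → V) : Prop where
  per : ∀ k, c (k + n) = c k
  adj : ∀ k, G.Adj (c k) (c (k + 1))
  iso : ∀ k j, 2 * j ≤ n → G.dist (c k) (c (k + j)) = j

/-- No isometric cycle of length at least four. -/
def NoIso (G : SimpleGraph V) : Prop := ∀ n, 4 ≤ n → ∀ c, ¬ IsoCyc G n c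

/-- No induced four-cycle. -/
def NoC4 (G : SimpleGraph V) : Prop :=
  ∀ a b c d, G.Adj a b → G.Adj b c → G.Adj c d → G.Adj d a → a ≠ c → b ≠ d →
    G.Adj a c ∨ G.Adj b d

/-- No induced five-cycle. -/
def NoC5 (G : SimpleGraph V) : Prop :=
  ∀ a b c d e, G.Adj a b → G.Adj b c → G.Adj c d → G.Adj d e → G.Adj e a →
    a ≠ c → a ≠ d → b ≠ d → b ≠ e → c ≠ e →
    G.Adj a c ∨ G.Adj a d ∨ G.Adj b d ∨ G.Adj b e ∨ G.Adj c e

theorem dist_two {x y z : V} (hne : x ≠ y) (hn : ¬ G.Adj x y) (h1 : G.Adj x z) (h2 : G.Adj z y) :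
    G.dist x y = 2 := by
  have hr : G.Reachable x y := h1.reachable.trans h2.reachable
  have h3 := hr.one_lt_dist_of_ne_of_not_adj hne hn
  have h4 := lip G h2 x
  rw [dist_eq_one_iff_adj.2 h1] at h4
  omega

theorem per_mod {n : ℕ} {c : ℕ → V} (hper : ∀ k, c (k + n) = c k) (k : ℕ) :
    c (k % n) = c k := by
  have h : ∀ q r, c (r + q * n) = c r := by
    intro q
    induction q with
    | zero => intro r; simp
    | succ q ih =>
      intro r
      have : r + (q + 1) * n = (r + q * n) + n := by ring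
      rw [this, hper, ih]
  have h2 := h (k / n) (k % n)
  rw [← h2]
  congr 1
  have := Nat.mod_add_div k n
  rw [mul_comm] at this
  exact this

/-- A closed sequence gives a periodic walk. -/
theorem exists_per {n : ℕ} (hn : 0 < n) {f : ℕ → V} (hf : ∀ k, k < n → G.Adj (f k) (f (k + 1)))
    (hcl : f n = f 0) : ∃ c : ℕ → V, (∀ k, c (k + n) = c k) ∧ (∀ k, G.Adj (c k) (c (k + 1))) ∧
      ∀ k, k < n → c k = f k := by
  refine ⟨fun k => f (k % n), fun k => by simp, fun k => ?_, fun k hk => by
    simp [Nat.mod_eq_of_lt hk]⟩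
  have h1 : k % n < n := Nat.mod_lt _ hn
  have h2 := hf _ h1
  show G.Adj (f (k % n)) (f ((k + 1) % n))
  rcases Nat.lt_or_ge (k % n + 1) n with h3 | h3
  · have : (k + 1) % n = k % n + 1 := by
      rw [Nat.add_mod, Nat.mod_eq_of_lt (a := 1) (by omega), Nat.mod_eq_of_lt h3]
    rw [this]
    exact h2
  · have h4 : k % n + 1 = n := by omega
    have : (k + 1) % n = 0 := by
      rw [← Nat.mod_add_mod, h4, Nat.mod_self]
    rw [this, ← hcl]
    rw [h4] at h2
    exact h2

theorem isoCyc_of {n h : ℕ} {c : ℕ → V} (hper : ∀ k, c (k + n) = c k)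
    (hadj : ∀ k, G.Adj (c k) (c (k + 1))) (hn : n ≤ 2 * h + 1)
    (hd : ∀ k, G.dist (c k) (c (k + h)) = h) : IsoCyc G n c := by
  refine ⟨hper, hadj, fun k j hj => ?_⟩
  have h1 := lip_up hadj (c k) k j
  rw [dist_self] at h1
  have h2 := lip_up hadj (c k) (k + j) (h - j)
  have h3 : k + j + (h - j) = k + h := by omega
  rw [h3, hd] at h2
  omega

theorem noC4_of_noIso (hG : NoIso G) : NoC4 G := by
  intro a b c d hab hbc hcd hda hac hbd
  by_contra hcon
  push Not at hcon
  obtain ⟨h1, h2⟩ := hcon
  have dac := dist_two hac h1 hab hbc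
  have dca := dist_two (Ne.symm hac) (fun h => h1 h.symm) hcd hda
  have dbd := dist_two hbd h2 hbc hcd
  have ddb := dist_two (Ne.symm hbd) (fun h => h2 h.symm) hda hab
  let f : ℕ → V := fun k => match k % 4 with
    | 0 => a | 1 => b | 2 => c | _ => d
  have hcase : ∀ k, k % 4 = 0 ∨ k % 4 = 1 ∨ k % 4 = 2 ∨ k % 4 = 3 := by intro k; omega
  apply hG 4 (by norm_num) f
  refine isoCyc_of (h := 2) ?_ ?_ (by norm_num) ?_
  · intro k
    show (match (k + 4) % 4 with | 0 => a | 1 => b | 2 => c | _ => d) = _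
    rw [Nat.add_mod_right]
  · intro k
    show G.Adj (match k % 4 with | 0 => a | 1 => b | 2 => c | _ => d)
      (match (k + 1) % 4 with | 0 => a | 1 => b | 2 => c | _ => d)
    rcases hcase k with h | h | h | h
    · rw [show (k + 1) % 4 = 1 by omega, h]; exact hab
    · rw [show (k + 1) % 4 = 2 by omega, h]; exact hbc
    · rw [show (k + 1) % 4 = 3 by omega, h]; exact hcd
    · rw [show (k + 1) % 4 = 0 by omega, h]; exact hda
  · intro k
    show G.dist (match k % 4 with | 0 => a | 1 => b | 2 => c | _ => d)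
      (match (k + 2) % 4 with | 0 => a | 1 => b | 2 => c | _ => d) = 2
    rcases hcase k with h | h | h | h
    · rw [show (k + 2) % 4 = 2 by omega, h]; exact dac
    · rw [show (k + 2) % 4 = 3 by omega, h]; exact dbd
    · rw [show (k + 2) % 4 = 0 by omega, h]; exact dca
    · rw [show (k + 2) % 4 = 1 by omega, h]; exact ddb

theorem noC5_of_noIso (hG : NoIso G) : NoC5 G := by
  intro a b c d e hab hbc hcd hde hea hac had hbd hbe hce
  by_contra hcon
  push Not at hcon
  obtain ⟨h1, h2, h3, h4, h5⟩ := hcon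
  have dac := dist_two hac h1 hab hbc
  have dbd := dist_two hbd h3 hbc hcd
  have dce := dist_two hce h5 hcd hde
  have dda := dist_two (Ne.symm had) (fun h => h2 h.symm) hde hea
  have deb := dist_two (Ne.symm hbe) (fun h => h4 h.symm) hea hab
  let f : ℕ → V := fun k => match k % 5 with
    | 0 => a | 1 => b | 2 => c | 3 => d | _ => e
  have hcase : ∀ k, k % 5 = 0 ∨ k % 5 = 1 ∨ k % 5 = 2 ∨ k % 5 = 3 ∨ k % 5 = 4 := by
    intro k; omega
  apply hG 5 (by norm_num) f
  refine isoCyc_of (h := 2) ?_ ?_ (by norm_num) ?_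
  · intro k
    show (match (k + 5) % 5 with | 0 => a | 1 => b | 2 => c | 3 => d | _ => e) = _
    rw [Nat.add_mod_right]
  · intro k
    show G.Adj (match k % 5 with | 0 => a | 1 => b | 2 => c | 3 => d | _ => e)
      (match (k + 1) % 5 with | 0 => a | 1 => b | 2 => c | 3 => d | _ => e)
    rcases hcase k with h | h | h | h | h
    · rw [show (k + 1) % 5 = 1 by omega, h]; exact hab
    · rw [show (k + 1) % 5 = 2 by omega, h]; exact hbc
    · rw [show (k + 1) % 5 = 3 by omega, h]; exact hcd
    · rw [show (k + 1) % 5 = 4 by omega, h]; exact hde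
    · rw [show (k + 1) % 5 = 0 by omega, h]; exact hea
  · intro k
    show G.dist (match k % 5 with | 0 => a | 1 => b | 2 => c | 3 => d | _ => e)
      (match (k + 2) % 5 with | 0 => a | 1 => b | 2 => c | 3 => d | _ => e) = 2
    rcases hcase k with h | h | h | h | h
    · rw [show (k + 2) % 5 = 2 by omega, h]; exact dac
    · rw [show (k + 2) % 5 = 3 by omega, h]; exact dbd
    · rw [show (k + 2) % 5 = 4 by omega, h]; exact dce
    · rw [show (k + 2) % 5 = 0 by omega, h]; exact dda
    · rw [show (k + 2) % 5 = 1 by omega, h]; exact deb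

/-- Interval neighbourhood condition at level `k`. -/
def A (G : SimpleGraph V) (k : ℕ) : Prop :=
  ∀ z v a b, G.dist z v = k + 1 → G.Adj v a → G.Adj v b → G.dist z a = k → G.dist z b = k →
    a = b ∨ G.Adj a b

/-- Triangle condition at level `k`. -/
def B (G : SimpleGraph V) (k : ℕ) : Prop :=
  ∀ z u v, G.Adj u v → G.dist z u = k + 1 → G.dist z v = k + 1 →
    ∃ w, G.Adj w u ∧ G.Adj w v ∧ G.dist z w = k

theorem exists_path_fun {z a : V} {m : ℕ} (h : G.dist z a = m) (hr : G.Reachable z a) :
    ∃ p : ℕ → V, p 0 = z ∧ p m = a ∧ ∀ k, k < m → G.Adj (p k) (p (k + 1)) := by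
  obtain ⟨p, hp⟩ := hr.exists_walk_length_eq_dist
  rw [h] at hp
  refine ⟨p.getVert, p.getVert_zero, ?_, fun k hk => p.adj_getVert_succ (by omega)⟩
  rw [← hp]
  exact p.getVert_length

theorem stepA (h4 : NoC4 G) (h5 : NoC5 G) {m : ℕ} (hm : 1 ≤ m) (hA : ∀ t, t < m → A G t)
    (hB : ∀ t, t < m → B G t) {c : ℕ → V} (hper : ∀ k, c (k + (2 * m + 2)) = c k)
    (hadj : ∀ k, G.Adj (c k) (c (k + 1))) (s : ℕ)
    (hP : G.dist (c s) (c (s + m + 1)) = m + 1 ∧ ¬ G.Adj (c (s + m)) (c (s + m + 2)) ∧
      c (s + m) ≠ c (s + m + 2)) :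
    G.dist (c (s + 1)) (c (s + 1 + m + 1)) = m + 1 ∧
      ¬ G.Adj (c (s + 1 + m)) (c (s + 1 + m + 2)) ∧ c (s + 1 + m) ≠ c (s + 1 + m + 2) := by
  obtain ⟨hd, hn, hne⟩ := hP
  have hvb : G.Adj (c (s + m + 1)) (c (s + m)) := (hadj (s + m)).symm
  have hva : G.Adj (c (s + m + 1)) (c (s + m + 2)) := hadj (s + m + 1)
  have hcs : c (s + m + 2 + m) = c s := by
    rw [← hper s]
    congr 1
    omega
  have hda : G.dist (c s) (c (s + m + 2)) = m := by
    have h1 := lip_up hadj (c (s + m + 2)) (s + m + 2) m
    rw [hcs, dist_self, dist_comm] at h1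
    have h2 := lip G hva.symm (c s)
    omega
  have hdb : G.dist (c s) (c (s + m)) = m := by
    have h1 := lip_up hadj (c s) s m
    rw [dist_self] at h1
    have h2 := lip G hvb.symm (c s)
    omega
  have claim : ∀ t, 1 ≤ t → t ≤ m → G.dist (c (s + m + 1 - t)) (c (s + m + 2)) = t + 1 := by
    intro t ht
    induction t, ht using Nat.le_induction with
    | base =>
      intro _
      exact dist_two hne hn hvb.symm hva
    | succ t ht ih =>
      intro htm
      have ih' := ih (by omega)
      have e1 : s + m + 1 - t = (s + (m - t)) + 1 := by omega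
      have e2 : s + m + 1 - (t + 1) = s + (m - t) := by omega
      rw [e1] at ih'
      rw [e2]
      have hxy := hadj (s + (m - t))
      set x := c (s + (m - t)) with hx
      -- levels from x
      have hxv : G.dist x (c (s + m + 1)) = t + 1 := by
        have h1 := lip_up hadj x (s + (m - t)) (t + 1)
        rw [← hx, dist_self] at h1
        have e3 : s + (m - t) + (t + 1) = s + m + 1 := by omega
        rw [e3] at h1
        have h2 := lip_down hadj (c (s + m + 1)) s (m - t)
        rw [dist_comm, hd, ← hx, dist_comm] at h2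
        omega
      have hxb : G.dist x (c (s + m)) = t := by
        have h1 := lip_up hadj x (s + (m - t)) t
        rw [← hx, dist_self] at h1
        have e3 : s + (m - t) + t = s + m := by omega
        rw [e3] at h1
        have h2 := lip G hvb.symm x
        omega
      have hup : G.dist x (c (s + m + 2)) ≤ t + 2 := by
        have := lip G hxy.symm (c (s + m + 2))
        rw [dist_comm, dist_comm (u := c (s + m + 2)) (v := c (s + (m - t) + 1))] at this
        omega
      have hlow : t ≤ G.dist x (c (s + m + 2)) := by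
        have := lip G hva.symm x
        omega
      have hn1 : G.dist x (c (s + m + 2)) ≠ t := by
        intro h
        rcases hA t (by omega) x _ _ _ hxv hvb hva hxb h with h | h
        · exact hne h
        · exact hn h
      have hn2 : G.dist x (c (s + m + 2)) ≠ t + 1 := by
        intro h
        obtain ⟨w, hwv, hwa, hdw⟩ := hB t (by omega) x _ _ hva hxv h
        rcases hA t (by omega) x _ _ _ hxv hwv.symm hvb hdw hxb with h' | hwb
        · rw [h'] at hwa
          exact hn hwa
        have hsw : G.dist (c s) w = m := by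
          have h1 := lip_down hadj w s (m - t)
          rw [← hx, dist_comm, dist_comm (u := w), hdw] at h1
          have h2 := lip G hwv (c s)
          omega
        obtain ⟨m', rfl⟩ : ∃ m', m = m' + 1 := ⟨m - 1, by omega⟩
        obtain ⟨p, hpa, hpw, hdp⟩ := hB m' (by omega) (c s) _ _ hwa.symm hda hsw
        obtain ⟨q, hqw, hqb, hdq⟩ := hB m' (by omega) (c s) _ _ hwb hsw hdb
        have hpq := hA m' (by omega) (c s) _ _ _ hsw hpw.symm hqw.symm hdp hdq
        set a := c (s + (m' + 1) + 2)
        set b := c (s + (m' + 1))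
        set v := c (s + (m' + 1) + 1)
        have hvp : v ≠ p := by rintro h; rw [← h] at hdp; omega
        have hvq : v ≠ q := by rintro h; rw [← h] at hdq; omega
        have hvp' : ¬ G.Adj v p := by
          intro h
          have := lip G h.symm (c s)
          omega
        have hvq' : ¬ G.Adj v q := by
          intro h
          have := lip G h.symm (c s)
          omega
        have hbp : ¬ G.Adj p b := by
          intro h
          rcases h4 v a p b hva hpa.symm h hvb.symm hvp (Ne.symm hne) with h | h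
          · exact hvp' h
          · exact hn h.symm
        have haq : ¬ G.Adj a q := by
          intro h
          rcases h4 v a q b hva h hqb hvb.symm hvq (Ne.symm hne) with h | h
          · exact hvq' h
          · exact hn h.symm
        rcases hpq with rfl | hpq
        · exact hbp hqb
        · have haq' : a ≠ q := by rintro h; rw [← h] at hdq; omega
          have hpb' : p ≠ b := by rintro h; rw [h] at hdp; omega
          rcases h5 v a p q b hva hpa.symm hpq hqb hvb.symm hvp hvq haq' (Ne.symm hne) hpb' with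
            h | h | h | h | h
          · exact hvp' h
          · exact hvq' h
          · exact haq h
          · exact hn h.symm
          · exact hbp h
      omega
  have hlast := claim m hm le_rfl
  have e4 : s + m + 1 - m = s + 1 := by omega
  have e5 : s + 1 + m + 1 = s + m + 2 := by omega
  have e6 : s + 1 + m = s + m + 1 := by omega
  have e7 : s + 1 + m + 2 = s + m + 3 := by omega
  rw [e4] at hlast
  rw [e5, e6]
  have hfar : G.dist (c s) (c (s + m + 3)) ≤ m - 1 := by
    have h1 := lip_up hadj (c (s + m + 3)) (s + m + 3) (m - 1)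
    have : s + m + 3 + (m - 1) = s + (2 * m + 2) := by omega
    rw [this, hper, dist_self, dist_comm] at h1
    omega
  refine ⟨hlast, ?_, ?_⟩
  · intro h
    have h1 : G.Adj (c (s + m + 3)) (c (s + m + 1)) := h.symm
    have := lip G h1 (c s)
    omega
  · intro h
    have h1 : c (s + m + 1) = c (s + m + 3) := h
    rw [h1] at hd
    omega

theorem A_of_lt (hG : NoIso G) {m : ℕ} (hm : 1 ≤ m) (hA : ∀ t, t < m → A G t)
    (hB : ∀ t, t < m → B G t) : A G m := by
  have h4 := noC4_of_noIso hG
  have h5 := noC5_of_noIso hG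
  intro z v a b hzv hva hvb hza hzb
  by_contra hcon
  push Not at hcon
  obtain ⟨hne, hn⟩ := hcon
  have hr : G.Reachable z v := Reachable.of_dist_ne_zero (by omega)
  obtain ⟨p, hp0, hpm, hp⟩ := exists_path_fun hza (hr.trans hva.reachable)
  obtain ⟨q, hq0, hqm, hq⟩ := exists_path_fun hzb (hr.trans hvb.reachable)
  let f : ℕ → V := fun k => if k ≤ m then p k else if k = m + 1 then v else q (2 * m + 2 - k)
  have f1 : ∀ k, k ≤ m → f k = p k := fun k hk => if_pos hk
  have f2 : f (m + 1) = v := by simp [f]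
  have f3 : ∀ k, m + 2 ≤ k → f k = q (2 * m + 2 - k) := by
    intro k hk
    show (if k ≤ m then p k else if k = m + 1 then v else q (2 * m + 2 - k)) = _
    rw [if_neg (by omega), if_neg (by omega)]
  have hf : ∀ k, k < 2 * m + 2 → G.Adj (f k) (f (k + 1)) := by
    intro k hk
    rcases Nat.lt_trichotomy k m with h | h | h
    · rw [f1 k h.le, f1 (k + 1) h]
      exact hp k h
    · subst h
      rw [f1 k le_rfl, f2, hpm]
      exact hva.symm
    · rcases Nat.eq_or_lt_of_le h with h' | h'
      · rw [← h', f2, f3 _ (by omega)]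
        have : 2 * m + 2 - (m.succ + 1) = m := by omega
        rw [this, hqm]
        exact hvb
      · rw [f3 _ (by omega), f3 _ (by omega)]
        have h1 := hq (2 * m + 2 - (k + 1)) (by omega)
        have h2 : 2 * m + 2 - (k + 1) + 1 = 2 * m + 2 - k := by omega
        rw [h2] at h1
        exact h1.symm
  have hcl : f (2 * m + 2) = f 0 := by
    rw [f1 0 (by omega), f3 _ (by omega), hp0, Nat.sub_self, hq0]
  obtain ⟨c, hper, hadj, hc⟩ := exists_per (by omega) hf hcl
  have hP : ∀ s, G.dist (c s) (c (s + m + 1)) = m + 1 ∧ ¬ G.Adj (c (s + m)) (c (s + m + 2)) ∧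
      c (s + m) ≠ c (s + m + 2) := by
    intro s
    induction s with
    | zero =>
      have e0 : c 0 = z := by rw [hc 0 (by omega), f1 0 (by omega), hp0]
      have em : c m = a := by rw [hc m (by omega), f1 m (by omega), hpm]
      have em1 : c (m + 1) = v := by rw [hc _ (by omega), f2]
      have em2 : c (m + 2) = b := by
        rw [hc _ (by omega), f3 _ (by omega)]
        have : 2 * m + 2 - (m + 2) = m := by omega
        rw [this, hqm]
      simp only [Nat.zero_add, e0, em, em1, em2]
      exact ⟨hzv, hn, hne⟩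
    | succ s ih => exact stepA h4 h5 hm hA hB hper hadj s ih
  exact hG (2 * m + 2) (by omega) c
    (isoCyc_of (h := m + 1) hper hadj (by omega) (fun k => (hP k).1))

theorem stepB (h4 : NoC4 G) {m : ℕ} (hm : 1 ≤ m) (hA : A G m) (hB : B G (m - 1)) {c : ℕ → V}
    (hper : ∀ k, c (k + (2 * m + 3)) = c k)
    (hadj : ∀ k, G.Adj (c k) (c (k + 1))) (s : ℕ)
    (hP : G.dist (c s) (c (s + m + 1)) = m + 1 ∧ G.dist (c s) (c (s + m + 2)) = m + 1 ∧
      ∀ w, G.Adj w (c (s + m + 1)) → G.Adj w (c (s + m + 2)) → G.dist (c s) w ≠ m) :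
    G.dist (c (s + 1)) (c (s + 1 + m + 1)) = m + 1 ∧
    G.dist (c (s + 1)) (c (s + 1 + m + 2)) = m + 1 ∧
      ∀ w, G.Adj w (c (s + 1 + m + 1)) → G.Adj w (c (s + 1 + m + 2)) →
        G.dist (c (s + 1)) w ≠ m := by
  obtain ⟨hdv, hdu, hno⟩ := hP
  have e1 : s + 1 + m + 1 = s + m + 2 := by omega
  have e2 : s + 1 + m + 2 = s + m + 3 := by omega
  rw [e1, e2]
  have hvu : G.Adj (c (s + m + 1)) (c (s + m + 2)) := hadj _
  have huu : G.Adj (c (s + m + 2)) (c (s + m + 3)) := hadj _
  have hzz := hadj s
  have hdu1 : G.dist (c s) (c (s + m + 3)) = m := by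
    have h1 := lip_up hadj (c (s + m + 3)) (s + m + 3) m
    have : s + m + 3 + m = s + (2 * m + 3) := by omega
    rw [this, hper, dist_self, dist_comm] at h1
    have h2 := lip G huu.symm (c s)
    omega
  -- comparison of the two bases
  have hbase : ∀ x, G.dist (c s) x ≤ G.dist (c (s + 1)) x + 1 ∧
      G.dist (c (s + 1)) x ≤ G.dist (c s) x + 1 := by
    intro x
    have h1 := lip G hzz x
    have h2 := lip G hzz.symm x
    rw [dist_comm, dist_comm (u := x)] at h1 h2
    omega
  have hdv' : G.dist (c (s + 1)) (c (s + m + 1)) = m := by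
    have h1 := lip_up hadj (c (s + 1)) (s + 1) m
    rw [dist_self] at h1
    have : s + 1 + m = s + m + 1 := by omega
    rw [this] at h1
    have := (hbase (c (s + m + 1))).1
    omega
  have hnu1v : ¬ G.Adj (c (s + m + 3)) (c (s + m + 1)) := by
    intro h
    exact hno _ h huu.symm hdu1
  have hneu1v : c (s + m + 3) ≠ c (s + m + 1) := by
    intro h
    rw [h] at hdu1
    omega
  obtain ⟨m', rfl⟩ : ∃ m', m = m' + 1 := ⟨m - 1, by omega⟩
  have hB' : B G m' := hB
  have hdu' : G.dist (c (s + 1)) (c (s + (m' + 1) + 2)) = m' + 1 + 1 := by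
    have h1 := lip G hvu (c (s + 1))
    have h2 := (hbase (c (s + (m' + 1) + 2))).1
    have h3 : G.dist (c (s + 1)) (c (s + (m' + 1) + 2)) ≠ m' + 1 := by
      intro h
      obtain ⟨w, hwv, hwu, hdw⟩ := hB' _ _ _ hvu hdv' h
      have h4 := (hbase w).1
      have h5 := lip G hwu (c s)
      exact hno w hwv hwu (by omega)
    omega
  have hdu1' : G.dist (c (s + 1)) (c (s + (m' + 1) + 3)) = m' + 1 + 1 := by
    have h1 := (hbase (c (s + (m' + 1) + 3))).2
    have h2 := lip G huu.symm (c (s + 1))
    have h3 : G.dist (c (s + 1)) (c (s + (m' + 1) + 3)) ≠ m' + 1 := by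
      intro h
      rcases hA _ _ _ _ hdu' huu hvu.symm h hdv' with h | h
      · exact hneu1v h
      · exact hnu1v h
    omega
  refine ⟨hdu', hdu1', ?_⟩
  intro w hwu hwu1 hdw
  rcases hA _ _ _ _ hdu' hwu.symm hvu.symm hdw hdv' with h | hwv
  · rw [h] at hwu1
    exact hnu1v hwu1.symm
  have hsw : G.dist (c s) w = m' + 1 + 1 := by
    have h1 := lip G hwu1.symm (c s)
    have h2 := lip G hwu (c s)
    have h3 := hno w hwv hwu
    omega
  obtain ⟨x, hxw, hxv, hdx⟩ := hB' _ _ _ hwv hdw hdv'
  have hsx : G.dist (c s) x = m' + 1 := by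
    have h1 := (hbase x).1
    have h2 := lip G hxv (c s)
    omega
  rcases hA _ _ _ _ hsw hwu1 hxw.symm hdu1 hsx with h | h
  · rw [← h] at hxv
    exact hnu1v hxv
  · have hux : c (s + (m' + 1) + 2) ≠ x := by
      intro h'
      rw [← h'] at hsx
      omega
    rcases h4 _ _ _ _ huu.symm hvu.symm hxv.symm h.symm hneu1v hux with h' | h'
    · exact hnu1v h'
    · exact hno x hxv h'.symm hsx

theorem B_of_lt (hG : NoIso G) {m : ℕ} (hm : 1 ≤ m) (hA : A G m) (hB : B G (m - 1)) :
    B G m := by
  have h4 := noC4_of_noIso hG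
  intro z u v huv hzu hzv
  by_contra hcon
  push Not at hcon
  have hr : G.Reachable z v := Reachable.of_dist_ne_zero (by omega)
  have hru : G.Reachable z u := Reachable.of_dist_ne_zero (by omega)
  obtain ⟨p, hp0, hpm, hp⟩ := exists_path_fun hzv hr
  obtain ⟨q, hq0, hqm, hq⟩ := exists_path_fun hzu hru
  let f : ℕ → V := fun k => if k ≤ m + 1 then p k else q (2 * m + 3 - k)
  have f1 : ∀ k, k ≤ m + 1 → f k = p k := fun k hk => if_pos hk
  have f3 : ∀ k, m + 2 ≤ k → f k = q (2 * m + 3 - k) := by
    intro k hk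
    show (if k ≤ m + 1 then p k else q (2 * m + 3 - k)) = _
    rw [if_neg (by omega)]
  have hf : ∀ k, k < 2 * m + 3 → G.Adj (f k) (f (k + 1)) := by
    intro k hk
    rcases Nat.lt_trichotomy k (m + 1) with h | h | h
    · rw [f1 k h.le, f1 (k + 1) h]
      exact hp k h
    · subst h
      rw [f1 _ le_rfl, f3 _ (by omega), hpm]
      have : 2 * m + 3 - (m + 1 + 1) = m + 1 := by omega
      rw [this, hqm]
      exact huv.symm
    · rw [f3 _ (by omega), f3 _ (by omega)]
      have h1 := hq (2 * m + 3 - (k + 1)) (by omega)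
      have h2 : 2 * m + 3 - (k + 1) + 1 = 2 * m + 3 - k := by omega
      rw [h2] at h1
      exact h1.symm
  have hcl : f (2 * m + 3) = f 0 := by
    rw [f1 0 (by omega), f3 _ (by omega), hp0, Nat.sub_self, hq0]
  obtain ⟨c, hper, hadj, hc⟩ := exists_per (by omega) hf hcl
  have hP : ∀ s, G.dist (c s) (c (s + m + 1)) = m + 1 ∧ G.dist (c s) (c (s + m + 2)) = m + 1 ∧
      ∀ w, G.Adj w (c (s + m + 1)) → G.Adj w (c (s + m + 2)) → G.dist (c s) w ≠ m := by
    intro s
    induction s with
    | zero =>
      have e0 : c 0 = z := by rw [hc 0 (by omega), f1 0 (by omega), hp0]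
      have em1 : c (m + 1) = v := by rw [hc _ (by omega), f1 _ (by omega), hpm]
      have em2 : c (m + 2) = u := by
        rw [hc _ (by omega), f3 _ (by omega)]
        have : 2 * m + 3 - (m + 2) = m + 1 := by omega
        rw [this, hqm]
      simp only [Nat.zero_add, e0, em1, em2]
      exact ⟨hzv, hzu, fun w h1 h2 => hcon w h2 h1⟩
    | succ s ih => exact stepB h4 hm hA hB hper hadj s ih
  exact hG (2 * m + 3) (by omega) c
    (isoCyc_of (h := m + 1) hper hadj (by omega) (fun k => (hP k).1))

theorem A_zero : A G 0 := by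
  intro z v a b hzv hva hvb hza hzb
  have hr : G.Reachable z v := Reachable.of_dist_ne_zero (by omega)
  left
  rw [← eq_of_dist_zero hza (hr.trans hva.reachable),
    ← eq_of_dist_zero hzb (hr.trans hvb.reachable)]

theorem B_zero : B G 0 := by
  intro z u v huv hzu hzv
  refine ⟨z, ?_, ?_, dist_self⟩
  · exact dist_eq_one_iff_adj.1 hzu
  · exact dist_eq_one_iff_adj.1 hzv

theorem AB (hG : NoIso G) : ∀ m, A G m ∧ B G m := by
  intro m
  induction m using Nat.strong_induction_on with
  | _ m ih =>
    rcases Nat.eq_zero_or_pos m with rfl | hm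
    · exact ⟨A_zero, B_zero⟩
    · have hA : A G m := A_of_lt hG hm (fun t ht => (ih t ht).1) (fun t ht => (ih t ht).2)
      exact ⟨hA, B_of_lt hG hm hA (ih (m - 1) (by omega)).2⟩

end Pool.Agent.Q255.Bridged
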