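import Pool.Agent.Q255.BridgedA
import Mathlib.SetTheory.Cardinal.Order
import Mathlib.Order.WellFounded

/-!
# Bridged graphs: breadth first search and dismantling
-/

namespace Pool.Agent.Q255.Bridged

open SimpleGraph

variable {V : Type*} {G : SimpleGraph V}

theorem walk_weak {V' : Type*} {H : SimpleGraph V} {F : SimpleGraph V'} (r : V → V')
    (hr : ∀ x y, H.Adj x y → r x = r y ∨ F.Adj (r x) (r y)) {x y : V} (w : H.Walk x y) :
    ∃ w' : F.Walk (r x) (r y), w'.length ≤ w.length := by
  induction w with
  | nil => exact ⟨Walk.nil, le_rfl⟩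
  | cons h p ih =>
    obtain ⟨w', hw'⟩ := ih
    rcases hr _ _ h with h' | h'
    · rw [h']
      exact ⟨w', by simp only [Walk.length_cons]; omega⟩
    · exact ⟨Walk.cons h' w', by simp only [Walk.length_cons]; omega⟩

theorem dist_weak {V' : Type*} {H : SimpleGraph V} {F : SimpleGraph V'} (r : V → V')
    (hr : ∀ x y, H.Adj x y → r x = r y ∨ F.Adj (r x) (r y)) {x y : V} (h : H.Reachable x y) :
    F.Reachable (r x) (r y) ∧ F.dist (r x) (r y) ≤ H.dist x y := by
  obtain ⟨w, hw⟩ := h.exists_walk_length_eq_dist
  obtain ⟨w', hw'⟩ := walk_weak r hr w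
  exact ⟨w'.reachable, (dist_le w').trans (by omega)⟩

theorem IsoCyc.shift {n : ℕ} {c : ℕ → V} (hc : IsoCyc G n c) (s : ℕ) :
    IsoCyc G n (fun k => c (s + k)) where
  per k := by
    show c (s + (k + n)) = c (s + k)
    rw [← Nat.add_assoc]
    exact hc.per (s + k)
  adj k := hc.adj (s + k)
  iso k j h := by
    show G.dist (c (s + k)) (c (s + (k + j))) = j
    rw [← Nat.add_assoc]
    exact hc.iso (s + k) j h

/-- Adding a dominated vertex. -/
theorem extend {H F : SimpleGraph V} {v : V} (hF : ∀ x y, F.Adj x y ↔ H.Adj x y ∧ x ≠ v ∧ y ≠ v)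
    (hdom : ∀ u, H.Adj u v → ∃ p, H.Adj p v ∧ ∀ x, H.Adj x v → x = p ∨ H.Adj x p)
    (h4 : NoC4 H) (h5 : NoC5 H) (hNF : NoIso F) : NoIso H := by
  classical
  have hle : F ≤ H := fun x y h => ((hF x y).1 h).1
  obtain ⟨r, hr1, hr2⟩ : ∃ r : V → V, (∀ x, x ≠ v → r x = x) ∧
      ∀ x y, H.Adj x y → r x = r y ∨ F.Adj (r x) (r y) := by
    by_cases hex : ∃ u, H.Adj u v
    · obtain ⟨u, hu⟩ := hex
      obtain ⟨p, hpv, hp⟩ := hdom u hu
      refine ⟨fun x => if x = v then p else x, fun x hx => if_neg hx, ?_⟩
      intro x y hxy
      by_cases hx : x = v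
      · subst hx
        have hy : y ≠ x := hxy.ne'
        show (if x = x then p else x) = (if y = x then p else y) ∨
          F.Adj (if x = x then p else x) (if y = x then p else y)
        rw [if_pos rfl, if_neg hy]
        rcases hp y hxy.symm with h | h
        · exact Or.inl h.symm
        · exact Or.inr ((hF _ _).2 ⟨h.symm, hpv.ne, hy⟩)
      · by_cases hy : y = v
        · subst hy
          show (if x = y then p else x) = (if y = y then p else y) ∨
            F.Adj (if x = y then p else x) (if y = y then p else y)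
          rw [if_pos rfl, if_neg hx]
          rcases hp x hxy with h | h
          · exact Or.inl h
          · exact Or.inr ((hF _ _).2 ⟨h, hx, hpv.ne⟩)
        · show (if x = v then p else x) = (if y = v then p else y) ∨
            F.Adj (if x = v then p else x) (if y = v then p else y)
          rw [if_neg hx, if_neg hy]
          exact Or.inr ((hF _ _).2 ⟨hxy, hx, hy⟩)
    · push Not at hex
      refine ⟨id, fun x _ => rfl, fun x y hxy => Or.inr ((hF _ _).2 ⟨hxy, ?_, ?_⟩)⟩
      · rintro rfl
        exact hex y hxy.symm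
      · rintro rfl
        exact hex x hxy
  have hdist : ∀ x y, x ≠ v → y ≠ v → F.dist x y = H.dist x y := by
    intro x y hx hy
    by_cases hreach : H.Reachable x y
    · obtain ⟨h1, h2⟩ := dist_weak r hr2 hreach
      rw [hr1 x hx, hr1 y hy] at h1 h2
      exact le_antisymm h2 (h1.dist_anti hle)
    · have h1 : ¬ F.Reachable x y := fun h => hreach (h.mono hle)
      rw [dist_eq_zero_of_not_reachable hreach, dist_eq_zero_of_not_reachable h1]
  intro n hn c hc
  by_cases hv : ∃ k, c k = v
  · obtain ⟨s, hs⟩ := hv
    have hc' := hc.shift s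
    set c' : ℕ → V := fun k => c (s + k) with hcdef
    have h0 : c' 0 = v := hs
    clear_value c'
    clear hcdef hc hs
    have hn0 : c' n = v := by
      have := hc'.per 0
      rw [Nat.zero_add] at this
      rw [this, h0]
    have hva : H.Adj v (c' 1) := by rw [← h0]; exact hc'.adj 0
    have hbv : H.Adj (c' (n - 1)) v := by
      have := hc'.adj (n - 1)
      have e : n - 1 + 1 = n := by omega
      rw [e, hn0] at this
      exact this
    have hab2 : H.dist (c' (n - 1)) (c' 1) = 2 := by
      have h1 := hc'.iso (n - 1) 2 (by omega)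
      have e : n - 1 + 2 = 1 + n := by omega
      rw [e, hc'.per] at h1
      exact h1
    set a := c' 1 with ha
    set b := c' (n - 1) with hb
    have hne : a ≠ b := by
      intro h
      rw [h, dist_self] at hab2
      omega
    have hnab : ¬ H.Adj a b := by
      intro h
      have := dist_eq_one_iff_adj.2 h.symm
      omega
    obtain ⟨p, hpv, hp⟩ := hdom _ hva.symm
    have hap : H.Adj a p := by
      rcases hp a hva.symm with h | h
      · rcases hp b hbv with h' | h'
        · exact absurd (h.trans h'.symm) hne
        · rw [← h] at h'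
          exact absurd h'.symm hnab
      · exact h
    have hbp : H.Adj b p := by
      rcases hp b hbv with h | h
      · rw [← h] at hap
        exact absurd hap hnab
      · exact h
    have hav : a ≠ v := hva.ne'
    have hbv' : b ≠ v := hbv.ne
    have hpv' : p ≠ v := hpv.ne
    have hAB := AB hNF
    have Fap : F.Adj a p := (hF _ _).2 ⟨hap, hav, hpv'⟩
    have Fbp : F.Adj b p := (hF _ _).2 ⟨hbp, hbv', hpv'⟩
    rcases Nat.even_or_odd' n with ⟨m, hm | hm⟩
    · -- even case
      obtain ⟨k, rfl⟩ : ∃ k, m = k + 2 := ⟨m - 2, by omega⟩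
      have hyv : H.dist (c' (k + 2)) v = k + 2 := by
        have h1 := hc'.iso (k + 2) (k + 2) (by omega)
        have e : k + 2 + (k + 2) = n := by omega
        rw [e, hn0] at h1
        exact h1
      have hya : H.dist (c' (k + 2)) a = k + 1 := by
        have h1 := hc'.iso 1 (k + 1) (by omega)
        have e : 1 + (k + 1) = k + 2 := by omega
        rw [e, ← ha, dist_comm] at h1
        exact h1
      have hyb : H.dist (c' (k + 2)) b = k + 1 := by
        have h1 := hc'.iso (k + 2) (k + 1) (by omega)
        have e : k + 2 + (k + 1) = n - 1 := by omega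
        rw [e, ← hb] at h1
        exact h1
      have hyne : c' (k + 2) ≠ v := by
        intro h
        rw [h, dist_self] at hyv
        omega
      have hyp1 := lip H hpv (c' (k + 2))
      have hyp2 := lip H hap (c' (k + 2))
      have Fya : F.dist (c' (k + 2)) a = k + 1 := by rw [hdist _ _ hyne hav, hya]
      have Fyb : F.dist (c' (k + 2)) b = k + 1 := by rw [hdist _ _ hyne hbv', hyb]
      rcases Nat.lt_or_ge (H.dist (c' (k + 2)) p) (k + 2) with hlt | hge
      · have Fyp : F.dist (c' (k + 2)) p = k + 1 := by
          rw [hdist _ _ hyne hpv']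
          omega
        obtain ⟨q1, hq1a, hq1p, hdq1⟩ := (hAB k).2 _ _ _ Fap Fya Fyp
        obtain ⟨q2, hq2b, hq2p, hdq2⟩ := (hAB k).2 _ _ _ Fbp Fyb Fyp
        have hqq := (hAB k).1 _ _ _ _ Fyp hq1p.symm hq2p.symm hdq1 hdq2
        have hq1v : q1 ≠ v := ((hF _ _).1 hq1a).2.1
        have hq2v : q2 ≠ v := ((hF _ _).1 hq2b).2.1
        have Hq1a := hle hq1a
        have Hq2b := hle hq2b
        have Hdq1 : H.dist (c' (k + 2)) q1 = k := by rw [← hdist _ _ hyne hq1v, hdq1]
        have Hdq2 : H.dist (c' (k + 2)) q2 = k := by rw [← hdist _ _ hyne hq2v, hdq2]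
        have nvq1 : ¬ H.Adj v q1 := by
          intro h
          have := lip H h.symm (c' (k + 2))
          omega
        have nvq2 : ¬ H.Adj v q2 := by
          intro h
          have := lip H h.symm (c' (k + 2))
          omega
        have nq1b : ¬ H.Adj q1 b := by
          intro h
          rcases h4 v a q1 b hva Hq1a.symm h hbv hq1v.symm hne with h | h
          · exact nvq1 h
          · exact hnab h
        have naq2 : ¬ H.Adj a q2 := by
          intro h
          rcases h4 v a q2 b hva h Hq2b hbv hq2v.symm hne with h | h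
          · exact nvq2 h
          · exact hnab h
        rcases hqq with rfl | hqq
        · exact nq1b Hq2b
        · have haq2 : a ≠ q2 := by
            rintro h
            rw [← h] at Hdq2
            omega
          have hq1b : q1 ≠ b := by
            rintro h
            rw [h] at Hdq1
            omega
          rcases h5 v a q1 q2 b hva Hq1a.symm (hle hqq) Hq2b hbv hq1v.symm hq2v.symm haq2 hne
            hq1b with h | h | h | h | h
          · exact nvq1 h
          · exact nvq2 h
          · exact naq2 h
          · exact hnab h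
          · exact nq1b h
      · have Fyp : F.dist (c' (k + 2)) p = k + 1 + 1 := by
          rw [hdist _ _ hyne hpv']
          omega
        rcases (hAB (k + 1)).1 _ _ _ _ Fyp Fap.symm Fbp.symm Fya Fyb with h | h
        · exact hne h
        · exact hnab (hle h)
    · -- odd case
      rcases Nat.lt_or_ge m 3 with hm3 | hm3
      · have hm2 : m = 2 := by omega
        subst hm2
        have hn5 : n = 5 := by omega
        subst hn5
        have d02 := hc'.iso 0 2 (by omega)
        have d13 := hc'.iso 1 2 (by omega)
        have d24 := hc'.iso 2 2 (by omega)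
        have d35 := hc'.iso 3 2 (by omega)
        have d46 := hc'.iso 4 2 (by omega)
        have e5 : c' 5 = c' 0 := hc'.per 0
        have e6 : c' 6 = c' 1 := hc'.per 1
        norm_num at d02 d13 d24 d35 d46
        rw [e5, dist_comm] at d35
        rw [e6, dist_comm] at d46
        have a0 := hc'.adj 0
        have a1 := hc'.adj 1
        have a2 := hc'.adj 2
        have a3 := hc'.adj 3
        have a4 := hc'.adj 4
        norm_num at a0 a1 a2 a3 a4
        rw [e5] at a4
        have nn : ∀ {x y : V}, H.dist x y = 2 → x ≠ y := by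
          intro x y h h'
          rw [h', dist_self] at h
          omega
        have na : ∀ {x y : V}, H.dist x y = 2 → ¬ H.Adj x y := by
          intro x y h h'
          rw [dist_eq_one_iff_adj.2 h'] at h
          omega
        rcases h5 _ _ _ _ _ a0 a1 a2 a3 a4 (nn d02) (nn d35) (nn d13) (nn d46) (nn d24) with
          h | h | h | h | h
        · exact na d02 h
        · exact na d35 h
        · exact na d13 h
        · exact na d46 h
        · exact na d24 h
      · obtain ⟨k, rfl⟩ : ∃ k, m = k + 1 := ⟨m - 1, by omega⟩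
        have hyv : H.dist (c' (k + 1)) v = k + 1 := by
          have h1 := hc'.iso 0 (k + 1) (by omega)
          rw [Nat.zero_add, h0, dist_comm] at h1
          exact h1
        have hya : H.dist (c' (k + 1)) a = k := by
          have h1 := hc'.iso 1 k (by omega)
          have e : 1 + k = k + 1 := by omega
          rw [e, ← ha, dist_comm] at h1
          exact h1
        have hyb : H.dist (c' (k + 1)) b = k + 1 := by
          have h1 := hc'.iso (k + 1) (k + 1) (by omega)
          have e : k + 1 + (k + 1) = n - 1 := by omega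
          rw [e, ← hb] at h1
          exact h1
        have hyb1 : H.dist (c' (k + 1)) (c' (n - 2)) = k := by
          have h1 := hc'.iso (k + 1) k (by omega)
          have e : k + 1 + k = n - 2 := by omega
          rw [e] at h1
          exact h1
        have hbb : H.Adj (c' (n - 2)) b := by
          have := hc'.adj (n - 2)
          have e : n - 2 + 1 = n - 1 := by omega
          rw [e, ← hb] at this
          exact this
        have hb1a : H.dist (c' (n - 2)) a = 3 := by
          have h1 := hc'.iso (n - 2) 3 (by omega)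
          have e : n - 2 + 3 = 1 + n := by omega
          rw [e, hc'.per, ← ha] at h1
          exact h1
        have hb1v : c' (n - 2) ≠ v := by
          intro h
          rw [h, dist_eq_one_iff_adj.2 hva] at hb1a
          omega
        have hyne : c' (k + 1) ≠ v := by
          intro h
          rw [h, dist_self] at hyv
          omega
        have Fya : F.dist (c' (k + 1)) a = k := by rw [hdist _ _ hyne hav, hya]
        have Fyb : F.dist (c' (k + 1)) b = k + 1 := by rw [hdist _ _ hyne hbv', hyb]
        have Fyb1 : F.dist (c' (k + 1)) (c' (n - 2)) = k := by rw [hdist _ _ hyne hb1v, hyb1]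
        have Fbb : F.Adj (c' (n - 2)) b := (hF _ _).2 ⟨hbb, hb1v, hbv'⟩
        have hyp1 := lip H hpv (c' (k + 1))
        have hyp2 := lip H hap (c' (k + 1))
        obtain ⟨x, hxa, hxb, hdx⟩ : ∃ x, F.Adj x a ∧ F.Adj x b ∧ F.dist (c' (k + 1)) x = k := by
          rcases Nat.lt_or_ge (H.dist (c' (k + 1)) p) (k + 1) with hlt | hge
          · refine ⟨p, Fap.symm, Fbp.symm, ?_⟩
            rw [hdist _ _ hyne hpv']
            omega
          · have Fyp : F.dist (c' (k + 1)) p = k + 1 := by
              rw [hdist _ _ hyne hpv']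
              omega
            obtain ⟨w, hwb, hwp, hdw⟩ := (hAB k).2 _ _ _ Fbp Fyb Fyp
            rcases (hAB k).1 _ _ _ _ Fyp Fap.symm hwp.symm Fya hdw with h | h
            · rw [← h] at hwb
              exact absurd (hle hwb) hnab
            · exact ⟨w, h.symm, hwb, hdw⟩
        rcases (hAB k).1 _ _ _ _ Fyb Fbb.symm hxb.symm Fyb1 hdx with h | h
        · rw [← h] at hxa
          have := dist_eq_one_iff_adj.2 (hle hxa)
          omega
        · have h1 := lip H (hle hxa) (c' (n - 2))
          rw [dist_eq_one_iff_adj.2 (hle h)] at h1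
          omega
  · push Not at hv
    apply hNF n hn c
    refine ⟨hc.per, fun k => (hF _ _).2 ⟨hc.adj k, hv _, hv _⟩, fun k j hj => ?_⟩
    rw [hdist _ _ (hv _) (hv _)]
    exact hc.iso k j hj

section BFS

/-- Properties of a level function. -/
structure Lev (G : SimpleGraph V) (lev : V → ℕ) : Prop where
  lip : ∀ u v, G.Adj u v → lev v ≤ lev u + 1
  par : ∀ v k, lev v = k + 1 → ∃ u, G.Adj u v ∧ lev u = k
  inc : ∀ v a b k, lev v = k + 1 → G.Adj v a → G.Adj v b → lev a = k → lev b = k →
    a = b ∨ G.Adj a b
  tc : ∀ u v, G.Adj u v → lev u = lev v → ∃ w, G.Adj w u ∧ G.Adj w v ∧ lev w + 1 = lev u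

variable (G) (lev : V → ℕ)

open Classical in
/-- The least neighbour of `v` on level `k`. -/
noncomputable def fa (R : {r : V → V → Prop // IsWellOrder V r}) (k : ℕ) (v : V) : V :=
  if h : {w | G.Adj w v ∧ lev w = k}.Nonempty then R.2.toIsWellFounded.wf.min _ h else v

/-- The breadth first search well-orders. -/
noncomputable def ord : ℕ → {r : V → V → Prop // IsWellOrder V r}
  | 0 => ⟨WellOrderingRel, WellOrderingRel.isWellOrder⟩
  | k + 1 => ⟨InvImage (Prod.Lex (ord k).1 WellOrderingRel) (fun v => (fa G lev (ord k) k v, v)),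
      by
        have := (ord k).2
        let e : InvImage (Prod.Lex (ord k).1 (WellOrderingRel (α := V)))
            (fun v => (fa G lev (ord k) k v, v)) ↪r Prod.Lex (ord k).1 WellOrderingRel :=
          ⟨⟨fun v => (fa G lev (ord k) k v, v), fun a b h => (Prod.ext_iff.1 h).2⟩, Iff.rfl⟩
        exact e.isWellOrder⟩

/-- The father function. -/
noncomputable def father (v : V) : V := fa G lev (ord G lev (lev v - 1)) (lev v - 1) v

variable {G lev}

theorem fa_spec (hL : Lev G lev) (R : {r : V → V → Prop // IsWellOrder V r}) {k : ℕ} {v : V}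
    (hv : lev v = k + 1) : G.Adj (fa G lev R k v) v ∧ lev (fa G lev R k v) = k ∧
      ∀ w, G.Adj w v → lev w = k → ¬ R.1 w (fa G lev R k v) := by
  have hne : {w | G.Adj w v ∧ lev w = k}.Nonempty := by
    obtain ⟨u, hu⟩ := hL.par v k hv
    exact ⟨u, hu⟩
  have h : fa G lev R k v = R.2.toIsWellFounded.wf.min _ hne := by
    unfold fa
    rw [dif_pos hne]
  rw [h]
  have h1 := R.2.toIsWellFounded.wf.min_mem _ hne
  refine ⟨h1.1, h1.2, fun w hw1 hw2 => ?_⟩
  exact R.2.toIsWellFounded.wf.not_lt_min _ (show w ∈ {w | G.Adj w v ∧ lev w = k} from ⟨hw1, hw2⟩)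

theorem father_eq {k : ℕ} {v : V} (hv : lev v = k + 1) :
    father G lev v = fa G lev (ord G lev k) k v := by
  unfold father
  rw [hv, Nat.add_sub_cancel]

theorem dom_same (hL : Lev G lev) (h4 : NoC4 G) (h5 : NoC5 G) : ∀ k u v, lev u = k → lev v = k →
    G.Adj u v → (ord G lev k).1 u v → G.Adj u (father G lev v) := by
  intro k
  induction k with
  | zero =>
    intro u v hu hv huv _
    obtain ⟨w, _, _, hw⟩ := hL.tc u v huv (by omega)
    omega
  | succ k ih =>
    intro u v hu hv huv hord
    obtain ⟨fu1, fu2, fu3⟩ := fa_spec hL (ord G lev k) hu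
    obtain ⟨fv1, fv2, fv3⟩ := fa_spec hL (ord G lev k) hv
    rw [father_eq hv]
    have hlex : Prod.Lex (ord G lev k).1 WellOrderingRel (fa G lev (ord G lev k) k u, u)
      (fa G lev (ord G lev k) k v, v) := hord
    rw [Prod.lex_def] at hlex
    set fu := fa G lev (ord G lev k) k u
    set fv := fa G lev (ord G lev k) k v
    have := (ord G lev k).2
    rcases hlex with hlt | ⟨heq, _⟩
    swap
    · have : fu = fv := heq
      rw [← this]
      exact fu1.symm
    have hlt' : (ord G lev k).1 fu fv := hlt
    by_contra hnu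
    have hfuv : ¬ G.Adj fu v := fun h => fv3 fu h fu2 hlt'
    obtain ⟨w, hwu, hwv, hw⟩ := hL.tc u v huv (by omega)
    have hwk : lev w = k := by omega
    have hwfu : w ≠ fu := by
      rintro h
      rw [h] at hwv
      exact hfuv hwv
    have hwfv : w ≠ fv := by
      rintro h
      rw [h] at hwu
      exact hnu hwu.symm
    have a1 : G.Adj w fu := (hL.inc u w fu k hu hwu.symm fu1.symm hwk fu2).resolve_left hwfu
    have a2 : G.Adj w fv := (hL.inc v w fv k hv hwv.symm fv1.symm hwk fv2).resolve_left hwfv
    have o1 : (ord G lev k).1 fu w := by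
      rcases trichotomous_of (ord G lev k).1 fu w with h | h | h
      · exact h
      · exact absurd h.symm hwfu
      · exact absurd h (fu3 w hwu hwk)
    have o2 : (ord G lev k).1 fv w := by
      rcases trichotomous_of (ord G lev k).1 fv w with h | h | h
      · exact h
      · exact absurd h.symm hwfv
      · exact absurd h (fv3 w hwv hwk)
    have b1 := ih fu w fu2 hwk a1.symm o1
    have b2 := ih fv w fv2 hwk a2.symm o2
    have hne : fu ≠ fv := by
      rintro h
      rw [h] at hlt'
      exact irrefl_of (ord G lev k).1 fv hlt'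
    have hufv : u ≠ fv := by
      rintro h
      rw [← h] at fv2
      omega
    have hfuv' : fu ≠ v := by
      rintro h
      rw [h] at fu2
      omega
    have hnff : ¬ G.Adj fu fv := by
      intro h
      rcases h4 u fu fv v fu1.symm h fv1 huv.symm hufv hfuv' with h | h
      · exact hnu h
      · exact hfuv h
    rcases k with _ | k
    · obtain ⟨w', _, _, hw'⟩ := hL.tc w fu a1 (by omega)
      omega
    · have hg := (fa_spec hL (ord G lev k) hwk).2.1
      rw [← father_eq hwk] at hg
      set g := father G lev w
      have n1 : u ≠ g := by rintro h; rw [← h] at hg; omega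
      have n2 : g ≠ v := by rintro h; rw [h] at hg; omega
      rcases h5 u fu g fv v fu1.symm b1 b2.symm fv1 huv.symm n1 hufv hne hfuv' n2 with
        h | h | h | h | h
      · have := hL.lip g u h.symm
        omega
      · exact hnu h
      · exact hnff h
      · exact hfuv h
      · have := hL.lip g v h
        omega

theorem dom (hL : Lev G lev) (h4 : NoC4 G) (h5 : NoC5 G) {k : ℕ} {u v : V} (hv : lev v = k + 1)
    (huv : G.Adj u v) (h : lev u = k ∨ (lev u = k + 1 ∧ (ord G lev (k + 1)).1 u v)) :
    u = father G lev v ∨ G.Adj u (father G lev v) := by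
  rcases h with h | ⟨h1, h2⟩
  · rw [father_eq hv]
    obtain ⟨fv1, fv2, fv3⟩ := fa_spec hL (ord G lev k) hv
    exact hL.inc v u _ k hv huv.symm fv1.symm h fv2
  · exact Or.inr (dom_same hL h4 h5 (k + 1) u v h1 hv huv h2)

theorem father_spec (hL : Lev G lev) {k : ℕ} {v : V} (hv : lev v = k + 1) :
    G.Adj (father G lev v) v ∧ lev (father G lev v) = k := by
  rw [father_eq hv]
  obtain ⟨fv1, fv2, _⟩ := fa_spec hL (ord G lev k) hv
  exact ⟨fv1, fv2⟩

/-- The graph induced on `T`, on the whole vertex set. -/
def ind (G : SimpleGraph V) (T : Finset V) : SimpleGraph V where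
  Adj x y := G.Adj x y ∧ x ∈ T ∧ y ∈ T
  symm := ⟨fun _ _ h => ⟨h.1.symm, h.2.2, h.2.1⟩⟩
  loopless := ⟨fun _ h => h.1.ne rfl⟩

theorem ind_noC4 (h4 : NoC4 G) (T : Finset V) : NoC4 (ind G T) := by
  intro a b c d hab hbc hcd hda hac hbd
  rcases h4 a b c d hab.1 hbc.1 hcd.1 hda.1 hac hbd with h | h
  · exact Or.inl ⟨h, hab.2.1, hbc.2.2⟩
  · exact Or.inr ⟨h, hab.2.2, hcd.2.2⟩

theorem ind_noC5 (h5 : NoC5 G) (T : Finset V) : NoC5 (ind G T) := by
  intro a b c d e hab hbc hcd hde hea h1 h2 h3 h4 h6
  have ha := hab.2.1
  have hb := hab.2.2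
  have hc := hbc.2.2
  have hd := hcd.2.2
  have he := hde.2.2
  rcases h5 a b c d e hab.1 hbc.1 hcd.1 hde.1 hea.1 h1 h2 h3 h4 h6 with h | h | h | h | h
  · exact Or.inl ⟨h, ha, hc⟩
  · exact Or.inr (Or.inl ⟨h, ha, hd⟩)
  · exact Or.inr (Or.inr (Or.inl ⟨h, hb, hd⟩))
  · exact Or.inr (Or.inr (Or.inr (Or.inl ⟨h, hb, he⟩)))
  · exact Or.inr (Or.inr (Or.inr (Or.inr ⟨h, hc, he⟩)))

/-- A finite nonempty set has a last element in the breadth first search order. -/
theorem exists_last (T : Finset V) (hT : T.Nonempty) : ∃ v ∈ T, (∀ u ∈ T, lev u ≤ lev v) ∧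
    ∀ u ∈ T, lev u = lev v → ¬ (ord G lev (lev v)).1 v u := by
  classical
  obtain ⟨v0, hv0, hmax⟩ := Finset.exists_max_image T lev hT
  have := (ord G lev (lev v0)).2
  let T' := T.filter (fun u => lev u = lev v0)
  have hT' : T'.Nonempty := ⟨v0, by simp [T', hv0]⟩
  -- maximal element of a finite set for a well-order
  have key : ∀ S : Finset V, S.Nonempty → ∃ v ∈ S, ∀ u ∈ S, ¬ (ord G lev (lev v0)).1 v u := by
    intro S hS
    induction hS using Finset.Nonempty.cons_induction with
    | singleton a =>
      refine ⟨a, by simp, fun u hu => ?_⟩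
      rw [Finset.mem_singleton] at hu
      rw [hu]
      exact irrefl_of (ord G lev (lev v0)).1 a
    | cons a S ha hS ih =>
      obtain ⟨v, hv, hvm⟩ := ih
      by_cases h : (ord G lev (lev v0)).1 v a
      · refine ⟨a, by simp, fun u hu => ?_⟩
        rw [Finset.mem_cons] at hu
        rcases hu with rfl | hu
        · exact irrefl_of (ord G lev (lev v0)).1 u
        · intro h'
          exact hvm u hu (trans_of (ord G lev (lev v0)).1 h h')
      · refine ⟨v, by simp [hv], fun u hu => ?_⟩
        rw [Finset.mem_cons] at hu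
        rcases hu with rfl | hu
        · exact h
        · exact hvm u hu
  obtain ⟨v, hv, hvm⟩ := key T' hT'
  have hv' : v ∈ T ∧ lev v = lev v0 := by simpa [T'] using hv
  refine ⟨v, hv'.1, fun u hu => by rw [hv'.2]; exact hmax u hu, fun u hu hlu => ?_⟩
  rw [hv'.2]
  exact hvm u (by simp [T', hu, hlu, hv'.2])

/-- Finite father-closed sets induce bridged graphs. -/
theorem noIso_ind (hL : Lev G lev) (h4 : NoC4 G) (h5 : NoC5 G) : ∀ (n : ℕ) (T : Finset V),
    T.card = n → (∀ v ∈ T, 0 < lev v → father G lev v ∈ T) → NoIso (ind G T) := by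
  classical
  intro n
  induction n with
  | zero =>
    intro T hT _ n _ c hc
    rw [Finset.card_eq_zero] at hT
    have := (hc.adj 0).2.1
    rw [hT] at this
    simp at this
  | succ n ih =>
    intro T hT hcl
    have hne : T.Nonempty := by
      rw [← Finset.card_pos, hT]
      omega
    obtain ⟨v, hvT, hv1, hv2⟩ := exists_last (G := G) (lev := lev) T hne
    have hcl' : ∀ x ∈ T.erase v, 0 < lev x → father G lev x ∈ T.erase v := by
      intro x hx hlx
      rw [Finset.mem_erase] at hx ⊢
      refine ⟨?_, hcl x hx.2 hlx⟩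
      intro h
      have h1 := (father_spec hL (k := lev x - 1) (v := x) (by omega)).2
      rw [h] at h1
      have := hv1 x hx.2
      omega
    have hIH := ih (T.erase v) (by rw [Finset.card_erase_of_mem hvT, hT]; rfl) hcl'
    refine extend (v := v) ?_ ?_ (ind_noC4 h4 T) (ind_noC5 h5 T) hIH
    · intro x y
      show (G.Adj x y ∧ x ∈ T.erase v ∧ y ∈ T.erase v) ↔ _
      show _ ↔ (G.Adj x y ∧ x ∈ T ∧ y ∈ T) ∧ x ≠ v ∧ y ≠ v
      rw [Finset.mem_erase, Finset.mem_erase]
      tauto
    · intro u hu
      have hlev : 0 < lev v := by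
        by_contra h0
        have h1 := hv1 u hu.2.1
        obtain ⟨w, _, _, hw⟩ := hL.tc u v hu.1 (by omega)
        omega
      obtain ⟨k, hk⟩ : ∃ k, lev v = k + 1 := ⟨lev v - 1, by omega⟩
      have hf := father_spec hL hk
      have hfT := hcl v hvT hlev
      refine ⟨father G lev v, ⟨hf.1, hfT, hvT⟩, ?_⟩
      intro x hx
      have hxle := hv1 x hx.2.1
      have hlip := hL.lip x v hx.1
      have : x = father G lev v ∨ G.Adj x (father G lev v) := by
        apply dom hL h4 h5 hk hx.1
        rcases Nat.lt_or_ge (lev x) (lev v) with h | h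
        · left
          omega
        · right
          have hxv : lev x = lev v := by omega
          refine ⟨by omega, ?_⟩
          rw [← hk]
          have := (ord G lev (lev v)).2
          rcases trichotomous_of (ord G lev (lev v)).1 x v with h' | h' | h'
          · exact h'
          · exact absurd h' hx.1.ne
          · exact absurd h' (hv2 x hx.2.1 hxv)
      rcases this with h | h
      · exact Or.inl h
      · exact Or.inr ⟨h, hx.2.1, hfT⟩

theorem lev_father (hL : Lev G lev) (v : V) : lev (father G lev v) = lev v - 1 := by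
  rcases Nat.eq_zero_or_pos (lev v) with h | h
  · unfold father fa
    split_ifs with hne
    · have h1 := (ord G lev (lev v - 1)).2.toIsWellFounded.wf.min_mem _ hne
      exact h1.2
    · omega
  · exact (father_spec hL (k := lev v - 1) (v := v) (by omega)).2

/-- Finite sets lie in finite father-closed sets. -/
theorem exists_closed (hL : Lev G lev) (S : Finset V) : ∃ T : Finset V, S ⊆ T ∧
    ∀ v ∈ T, 0 < lev v → father G lev v ∈ T := by
  classical
  let N := S.sup lev
  refine ⟨(Finset.range (N + 1)).biUnion (fun i => S.image ((father G lev)^[i])), ?_, ?_⟩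
  · intro s hs
    rw [Finset.mem_biUnion]
    exact ⟨0, by simp, by simp [hs]⟩
  · intro v hv hlv
    rw [Finset.mem_biUnion] at hv ⊢
    obtain ⟨i, hi, hv⟩ := hv
    rw [Finset.mem_image] at hv
    obtain ⟨s, hs, rfl⟩ := hv
    have hlev : ∀ j, lev ((father G lev)^[j] s) = lev s - j := by
      intro j
      induction j with
      | zero => simp
      | succ j ih =>
        rw [Function.iterate_succ_apply', lev_father hL, ih]
        omega
    have hsN : lev s ≤ N := Finset.le_sup (f := lev) hs
    rw [hlev] at hlv
    refine ⟨i + 1, ?_, ?_⟩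
    · rw [Finset.mem_range]
      omega
    · rw [Finset.mem_image]
      exact ⟨s, hs, Function.iterate_succ_apply' _ _ _⟩

end BFS

/-- The distance from a representative of the connected component is a level function. -/
theorem exists_lev (hG : NoIso G) : ∃ lev : V → ℕ, Lev G lev := by
  let base : V → V := fun v => Quot.out (G.connectedComponentMk v)
  have hreach : ∀ v, G.Reachable (base v) v := by
    intro v
    apply ConnectedComponent.exact
    exact Quot.out_eq (G.connectedComponentMk v)
  have hbase : ∀ u v, G.Adj u v → base u = base v := by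
    intro u v h
    show Quot.out _ = Quot.out _
    rw [ConnectedComponent.sound h.reachable]
  have hAB := AB hG
  refine ⟨fun v => G.dist (base v) v, ?_, ?_, ?_, ?_⟩
  · intro u v h
    show G.dist (base v) v ≤ G.dist (base u) u + 1
    rw [hbase u v h]
    exact Bridged.lip G h (base v)
  · intro v k hv
    obtain ⟨u, hu1, hu2⟩ := exists_parent hv
    refine ⟨u, hu1, ?_⟩
    show G.dist (base u) u = k
    rw [hbase u v hu1]
    exact hu2
  · intro v a b k hv hva hvb ha hb
    have ha' : G.dist (base a) a = k := ha
    have hb' : G.dist (base b) b = k := hb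
    rw [← hbase v a hva] at ha'
    rw [← hbase v b hvb] at hb'
    exact (hAB k).1 (base v) v a b hv hva hvb ha' hb'
  · intro u v huv hlev
    have hlev' : G.dist (base u) u = G.dist (base v) v := hlev
    rw [← hbase u v huv] at hlev'
    rcases Nat.eq_zero_or_pos (G.dist (base u) u) with h0 | hpos
    · exfalso
      have h1 := eq_of_dist_zero h0 (hreach u)
      rw [h0] at hlev'
      have hr2 : G.Reachable (base u) v := by rw [hbase u v huv]; exact hreach v
      have h2 := eq_of_dist_zero hlev'.symm hr2
      exact huv.ne (h1.symm.trans h2)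
    · obtain ⟨k, hk⟩ : ∃ k, G.dist (base u) u = k + 1 := ⟨G.dist (base u) u - 1, by omega⟩
      obtain ⟨w, hwu, hwv, hdw⟩ := (hAB k).2 (base u) u v huv hk (by omega)
      refine ⟨w, hwu, hwv, ?_⟩
      show G.dist (base w) w + 1 = G.dist (base u) u
      rw [hbase w u hwu, hdw, hk]

end Pool.Agent.Q255.Bridged
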