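import Pool.Agent.Q255.BridgedB

/-!
# Bridged graphs: translation to walks
-/

namespace Pool.Agent.Q255.Bridged

open SimpleGraph

variable {V : Type*} {G : SimpleGraph V}

theorem IsoCyc.lower {n : ℕ} {c : ℕ → V} (hc : IsoCyc G n c) {i j : ℕ} (hij : i ≤ j)
    (hj : j < i + n) : G.dist (c i) (c j) = min (j - i) (n - (j - i)) := by
  rcases Nat.lt_or_ge n (2 * (j - i)) with h | h
  · have h1 := hc.iso j (i + n - j) (by omega)
    have e : j + (i + n - j) = i + n := by omega
    rw [e, hc.per, dist_comm] at h1
    rw [h1]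
    omega
  · have h1 := hc.iso i (j - i) h
    have e : i + (j - i) = j := by omega
    rw [e] at h1
    rw [h1]
    omega

theorem noIso_of_walk (h : ∀ (u : V) (c : G.Walk u u), c.IsCycle → 4 ≤ c.length →
    ∃ i j : ℕ, i ≤ j ∧ j < c.length ∧
      G.dist (c.getVert i) (c.getVert j) < min (j - i) (c.length - (j - i))) : NoIso G := by
  intro n hn c hc
  have hw : ∀ m, ∃ w : G.Walk (c 0) (c m), w.length = m ∧ ∀ i, i ≤ m → w.getVert i = c i := by
    intro m
    induction m with
    | zero =>
      refine ⟨Walk.nil, rfl, fun i hi => ?_⟩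
      have : i = 0 := by omega
      rw [this]
      rfl
    | succ m ih =>
      obtain ⟨w, hw1, hw2⟩ := ih
      refine ⟨w.append (Walk.cons (hc.adj m) Walk.nil), ?_, fun i hi => ?_⟩
      · rw [Walk.length_append, hw1]
        rfl
      · rw [Walk.getVert_append, hw1]
        split_ifs with hlt
        · exact hw2 i hlt.le
        · rcases Nat.lt_or_ge m i with h1 | h1
          · have : i = m + 1 := by omega
            subst this
            rw [Nat.add_sub_cancel_left]
            rfl
          · have : i = m := by omega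
            subst this
            rw [Nat.sub_self]
            rfl
  obtain ⟨w, hw1, hw2⟩ := hw n
  have hcn : c n = c 0 := by
    have := hc.per 0
    rwa [Nat.zero_add] at this
  let w' : G.Walk (c 0) (c 0) := w.copy rfl hcn
  have hl : w'.length = n := by simp [w', hw1]
  have hg : ∀ i, i ≤ n → w'.getVert i = c i := by
    intro i hi
    simp only [w', Walk.getVert_copy]
    exact hw2 i hi
  have hcyc : w'.IsCycle := by
    rw [Walk.isCycle_iff_isPath_tail_and_le_length]
    refine ⟨(Walk.IsPath.getVert_injOn_iff _).1 ?_, by omega⟩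
    intro i hi j hj hij
    have hlt : w'.tail.length + 1 = w'.length := by
      apply Walk.length_tail_add_one
      intro hnil
      have := hnil.eq_nil
      rw [this] at hl
      simp at hl
      omega
    have hi' : i ≤ w'.tail.length := hi
    have hj' : j ≤ w'.tail.length := hj
    rw [Walk.getVert_tail, Walk.getVert_tail, hg _ (by omega), hg _ (by omega)] at hij
    by_contra hne
    rcases Nat.lt_or_gt_of_ne hne with hlt' | hlt'
    · have h1 := hc.lower (i := i + 1) (j := j + 1) (by omega) (by omega)
      rw [hij, dist_self] at h1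
      omega
    · have h1 := hc.lower (i := j + 1) (j := i + 1) (by omega) (by omega)
      rw [hij, dist_self] at h1
      omega
  obtain ⟨i, j, hij, hj, hd⟩ := h _ w' hcyc (by omega)
  rw [hl] at hj hd
  rw [hg i (by omega), hg j (by omega), hc.lower hij (by omega)] at hd
  exact lt_irrefl _ hd

theorem walk_of_noIso (hG : NoIso G) (u : V) (w : G.Walk u u) (hn : 4 ≤ w.length) :
    ∃ i j : ℕ, i ≤ j ∧ j < w.length ∧
      G.dist (w.getVert i) (w.getVert j) < min (j - i) (w.length - (j - i)) := by
  by_contra hcon
  push Not at hcon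
  obtain ⟨c, hper, hadj, hc⟩ := exists_per (G := G) (n := w.length) (f := w.getVert) (by omega)
    (fun k hk => w.adj_getVert_succ hk) (by rw [w.getVert_length, w.getVert_zero])
  refine hG w.length hn c ⟨hper, hadj, fun k j hj => ?_⟩
  have hup := lip_up hadj (c k) k j
  rw [dist_self] at hup
  have hlow : j ≤ G.dist (c k) (c (k + j)) := by
    rw [← per_mod hper k, ← per_mod hper (k + j)]
    have hk : k % w.length < w.length := Nat.mod_lt _ (by omega)
    have hkj : (k + j) % w.length < w.length := Nat.mod_lt _ (by omega)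
    rw [hc _ hk, hc _ hkj]
    rcases Nat.lt_or_ge (k % w.length + j) w.length with h | h
    · have e : (k + j) % w.length = k % w.length + j := by
        rw [← Nat.mod_add_mod, Nat.mod_eq_of_lt h]
      rw [e]
      have h1 := hcon (k % w.length) (k % w.length + j) (by omega) h
      omega
    · have e : (k + j) % w.length = k % w.length + j - w.length := by
        rw [← Nat.mod_add_mod, Nat.mod_eq_sub_mod h, Nat.mod_eq_of_lt (by omega)]
      rw [e]
      have h1 := hcon (k % w.length + j - w.length) (k % w.length) (by omega) hk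
      rw [dist_comm]
      omega
  omega

theorem noIso_induce {T : Finset V} (h : NoIso (ind G T)) :
    NoIso (G.induce (T : Set V)) := by
  classical
  intro n hn c hc
  -- inclusion and retraction
  let t0 : (T : Set V) := c 0
  let r : V → (T : Set V) := fun x => if hx : x ∈ (T : Set V) then ⟨x, hx⟩ else t0
  have hr1 : ∀ x : (T : Set V), r x = x := by
    intro x
    show (if hx : (x : V) ∈ (T : Set V) then (⟨x, hx⟩ : (T : Set V)) else t0) = x
    rw [dif_pos x.2]
  have hr2 : ∀ x y, (ind G T).Adj x y →
      r x = r y ∨ (G.induce (T : Set V)).Adj (r x) (r y) := by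
    intro x y hxy
    right
    have e1 : r x = ⟨x, hxy.2.1⟩ := hr1 ⟨x, hxy.2.1⟩
    have e2 : r y = ⟨y, hxy.2.2⟩ := hr1 ⟨y, hxy.2.2⟩
    rw [e1, e2]
    exact hxy.1
  have hi : ∀ x y : (T : Set V), (G.induce (T : Set V)).Adj x y →
      (x : V) = y ∨ (ind G T).Adj x y := by
    intro x y hxy
    exact Or.inr ⟨hxy, x.2, y.2⟩
  apply h n hn (fun k => (c k : V))
  refine ⟨fun k => by rw [hc.per], fun k => ⟨hc.adj k, (c k).2, (c (k + 1)).2⟩, fun k j hj => ?_⟩
  have hreach : ∀ k j, (G.induce (T : Set V)).Reachable (c k) (c (k + j)) := by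
    intro k j
    induction j with
    | zero => exact Reachable.refl _
    | succ j ih => exact ih.trans (hc.adj (k + j)).reachable
  obtain ⟨h1, h2⟩ := dist_weak (H := G.induce (T : Set V)) (F := ind G T)
    (fun x : (T : Set V) => (x : V)) hi (hreach k j)
  obtain ⟨_, h3⟩ := dist_weak (H := ind G T) (F := G.induce (T : Set V)) r hr2 h1
  rw [hr1, hr1] at h3
  exact (le_antisymm h2 h3).trans (hc.iso k j hj)

theorem main (hG : NoIso G) (S : Finset V) : ∃ T : Finset V, S ⊆ T ∧
    NoIso (G.induce (T : Set V)) := by
  obtain ⟨lev, hL⟩ := exists_lev hG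
  obtain ⟨T, hST, hT⟩ := exists_closed hL S
  exact ⟨T, hST, noIso_induce
    (noIso_ind hL (noC4_of_noIso hG) (noC5_of_noIso hG) T.card T rfl hT)⟩

end Pool.Agent.Q255.Bridged
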