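import Mathlib.Combinatorics.Hall.Basic
import Mathlib.Data.Sym.Sym2
import Mathlib.Data.ZMod.Basic
import Mathlib.Tactic

/-!
# Even edge sets decompose into 2-regular ones
-/

namespace Pool.Agent.Q255.EvenDecomp

open Finset

variable {V : Type*} [Fintype V] [DecidableEq V]

/-- The number of edges of `F` at `x`. -/
def dg (F : Finset (Sym2 V)) (x : V) : ℕ := (F.filter (fun e => x ∈ e)).card

theorem card_verts {e : Sym2 V} (he : ¬ e.IsDiag) : (univ.filter (fun x => x ∈ e)).card = 2 := by
  induction e with
  | _ a b =>
    have hab : a ≠ b := by simpa using he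
    have : univ.filter (fun x => x ∈ s(a, b)) = {a, b} := by
      ext x
      simp
    rw [this, card_pair hab]

theorem sum_dg {F : Finset (Sym2 V)} (hF : ∀ e ∈ F, ¬ e.IsDiag) : ∑ x, dg F x = 2 * F.card := by
  unfold dg
  simp_rw [card_filter]
  rw [sum_comm]
  have : ∀ e ∈ F, (∑ x, if x ∈ e then 1 else 0) = 2 := by
    intro e he
    rw [← card_filter, card_verts (hF e he)]
  rw [sum_congr rfl this, sum_const, smul_eq_mul, mul_comm]

/-- Balanced orientation of an even edge set. -/
theorem orientation {R : Finset (Sym2 V)} (hR : ∀ e ∈ R, ¬ e.IsDiag)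
    (heven : ∀ x, Even (dg R x)) :
    ∃ tl : Sym2 V → V, (∀ e ∈ R, tl e ∈ e) ∧ ∀ x, 2 * (R.filter (fun e => tl e = x)).card = dg R x := by
  classical
  let t : {e // e ∈ R} → Finset (Σ _ : V, ℕ) := fun e =>
    (univ.filter (fun x => x ∈ e.1)).sigma (fun x => range (dg R x / 2))
  have hall : ∀ s : Finset {e // e ∈ R}, s.card ≤ (s.biUnion t).card := by
    intro s
    let N : Finset V := univ.filter (fun x => ∃ e ∈ s, x ∈ e.1)
    have hN : s.biUnion t = N.sigma (fun x => range (dg R x / 2)) := by
      ext ⟨x, i⟩
      simp only [mem_biUnion, t, mem_sigma, mem_filter, mem_univ, true_and, N]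
      constructor
      · rintro ⟨e, he, hx, hi⟩
        exact ⟨⟨e, he, hx⟩, hi⟩
      · rintro ⟨⟨e, he, hx⟩, hi⟩
        exact ⟨e, he, hx, hi⟩
    rw [hN, card_sigma]
    have h1 : 2 * s.card ≤ 2 * ∑ x ∈ N, (range (dg R x / 2)).card := by
      rw [mul_sum]
      have h2 : ∑ x ∈ N, (s.filter (fun e => x ∈ e.1)).card = 2 * s.card := by
        simp_rw [card_filter]
        rw [sum_comm]
        have : ∀ e ∈ s, (∑ x ∈ N, if x ∈ e.1 then 1 else 0) = 2 := by
          intro e he
          rw [← card_filter, ← card_verts (hR e.1 e.2)]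
          congr 1
          ext x
          simp only [mem_filter, mem_univ, true_and, N]
          constructor
          · rintro ⟨_, h⟩
            exact h
          · intro h
            exact ⟨⟨e, he, h⟩, h⟩
        rw [sum_congr rfl this, sum_const, smul_eq_mul, mul_comm]
      rw [← h2]
      apply sum_le_sum
      intro x _
      rw [card_range, Nat.mul_div_cancel' (heven x).two_dvd]
      unfold dg
      apply card_le_card_of_injOn (fun e => e.1)
      · intro e he
        simp only [coe_filter, Set.mem_ofPred_eq] at he ⊢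
        exact ⟨e.2, he.2⟩
      · intro a _ b _ hab
        exact Subtype.ext hab
    omega
  obtain ⟨f, hf1, hf2⟩ := (Finset.all_card_le_biUnion_card_iff_exists_injective t).1 hall
  let tl : Sym2 V → V := fun e => if h : e ∈ R then (f ⟨e, h⟩).1 else (Quot.out e).1
  have htl : ∀ e (h : e ∈ R), tl e = (f ⟨e, h⟩).1 := fun e h => dif_pos h
  have hmem : ∀ e (h : e ∈ R), tl e ∈ e ∧ (f ⟨e, h⟩).2 < dg R (tl e) / 2 := by
    intro e h
    have := hf2 ⟨e, h⟩
    simp only [t, mem_sigma, mem_filter, mem_univ, true_and, mem_range] at this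
    rw [htl e h]
    exact this
  refine ⟨tl, fun e h => (hmem e h).1, ?_⟩
  have hle : ∀ x, (R.filter (fun e => tl e = x)).card ≤ dg R x / 2 := by
    intro x
    have h1 : ((R.filter (fun e => tl e = x)).attach).card ≤ (range (dg R x / 2)).card := by
      apply card_le_card_of_injOn (fun e => (f ⟨e.1, (mem_filter.1 e.2).1⟩).2)
      · intro e _
        have h2 := (hmem e.1 (mem_filter.1 e.2).1).2
        have hx : tl e.1 = x := (mem_filter.1 e.2).2
        have h3 : dg R (tl e.1) / 2 = dg R x / 2 := by rw [hx]
        rw [mem_coe, mem_range]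
        exact lt_of_lt_of_eq h2 h3
      · intro a _ b _ hab
        have ha := htl a.1 (mem_filter.1 a.2).1
        have hb := htl b.1 (mem_filter.1 b.2).1
        have hxa : tl a.1 = x := (mem_filter.1 a.2).2
        have hxb : tl b.1 = x := (mem_filter.1 b.2).2
        have : f ⟨a.1, (mem_filter.1 a.2).1⟩ = f ⟨b.1, (mem_filter.1 b.2).1⟩ :=
          Sigma.ext (ha.symm.trans ((hxa.trans hxb.symm).trans hb)) (heq_of_eq hab)
        have := hf1 this
        exact Subtype.ext (Subtype.mk.inj this)
    rwa [card_attach, card_range] at h1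
  have hsum1 : ∑ x, (R.filter (fun e => tl e = x)).card = R.card := by
    rw [← card_eq_sum_card_fiberwise (f := tl) (t := univ) (fun _ _ => mem_univ _)]
  have hsum2 : ∑ x, dg R x / 2 = R.card := by
    have h1 := sum_dg hR
    have h2 : ∑ x, dg R x = 2 * ∑ x, dg R x / 2 := by
      rw [mul_sum]
      refine sum_congr rfl fun x _ => ?_
      rw [Nat.mul_div_cancel' (heven x).two_dvd]
    omega
  have heq := (sum_eq_sum_iff_of_le (fun x _ => hle x)).1 (hsum1.trans hsum2.symm)
  intro x
  rw [heq x (mem_univ x), Nat.mul_div_cancel' (heven x).two_dvd]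

/-- Nonnegative integer matrices with constant row and column sums `k` are sums of `k` permutation
matrices. -/
theorem perm_decomposition : ∀ (k : ℕ) (A : V → V → ℕ), (∀ u, ∑ v, A u v = k) →
    (∀ v, ∑ u, A u v = k) → ∃ σ : Fin k → Equiv.Perm V,
      ∀ u v, A u v = (univ.filter (fun i => σ i u = v)).card := by
  classical
  intro k
  induction k with
  | zero =>
    intro A hr _
    refine ⟨fun i => i.elim0, fun u v => ?_⟩
    have h1 := hr u
    rw [sum_eq_zero_iff] at h1
    rw [h1 v (mem_univ v)]
    simp
  | succ k ih =>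
    intro A hr hc
    let t : V → Finset V := fun u => univ.filter (fun v => A u v ≠ 0)
    have hall : ∀ s : Finset V, s.card ≤ (s.biUnion t).card := by
      intro s
      have h1 : ∑ u ∈ s, ∑ v ∈ s.biUnion t, A u v = (k + 1) * s.card := by
        have : ∀ u ∈ s, ∑ v ∈ s.biUnion t, A u v = k + 1 := by
          intro u hu
          rw [← hr u]
          apply sum_subset (subset_univ _)
          intro v _ hv
          by_contra h
          exact hv (mem_biUnion.2 ⟨u, hu, by simpa [t] using h⟩)
        rw [sum_congr rfl this, sum_const, smul_eq_mul, mul_comm]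
      have h2 : ∑ v ∈ s.biUnion t, ∑ u ∈ s, A u v ≤ (k + 1) * (s.biUnion t).card := by
        have : ∀ v ∈ s.biUnion t, ∑ u ∈ s, A u v ≤ k + 1 := by
          intro v _
          rw [← hc v]
          exact sum_le_sum_of_subset (subset_univ s)
        refine (sum_le_sum this).trans ?_
        rw [sum_const, smul_eq_mul, mul_comm]
      rw [sum_comm] at h1
      have h3 : (k + 1) * s.card ≤ (k + 1) * (s.biUnion t).card := h1 ▸ h2
      exact Nat.le_of_mul_le_mul_left h3 (Nat.succ_pos k)
    obtain ⟨f, hf1, hf2⟩ := (Finset.all_card_le_biUnion_card_iff_exists_injective t).1 hall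
    let τ : Equiv.Perm V := Equiv.ofBijective f (Finite.injective_iff_bijective.1 hf1)
    have hτ : ∀ u, A u (τ u) ≠ 0 := by
      intro u
      have := hf2 u
      simp only [t, mem_filter, mem_univ, true_and] at this
      exact this
    let A' : V → V → ℕ := fun u v => A u v - (if τ u = v then 1 else 0)
    have hA : ∀ u v, A u v = A' u v + (if τ u = v then 1 else 0) := by
      intro u v
      show A u v = A u v - (if τ u = v then 1 else 0) + (if τ u = v then 1 else 0)
      split_ifs with h
      · have := hτ u
        rw [h] at this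
        omega
      · omega
    have hr' : ∀ u, ∑ v, A' u v = k := by
      intro u
      have h1 := hr u
      simp_rw [hA] at h1
      rw [sum_add_distrib] at h1
      simp only [sum_ite_eq, mem_univ, if_true] at h1
      omega
    have hc' : ∀ v, ∑ u, A' u v = k := by
      intro v
      have h1 := hc v
      simp_rw [hA] at h1
      rw [sum_add_distrib] at h1
      have h2 : (∑ u, if τ u = v then 1 else 0) = 1 := by
        rw [sum_eq_single (τ.symm v)]
        · simp
        · intro b _ hb
          rw [if_neg]
          intro h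
          exact hb (by rw [← h]; simp)
        · simp
      omega
    obtain ⟨σ, hσ⟩ := ih A' hr' hc'
    refine ⟨Fin.cons τ σ, fun u v => ?_⟩
    rw [hA, hσ, card_filter, card_filter, Fin.sum_univ_succ]
    simp only [Fin.cons_zero, Fin.cons_succ]
    rw [add_comm]

/-- Every vertex of the graph formed by the edges in `E` has degree exactly `2`. -/
def TwoRegular (E : Finset (Sym2 V)) : Prop :=
  ∀ x, (∃ e ∈ E, x ∈ e) → (E.filter (fun e => x ∈ e)).card = 2

/-- An even edge set of maximum degree at most `2 * k` decomposes into `k` (possibly empty)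
2-regular edge sets. -/
theorem even_decomposition {R : Finset (Sym2 V)} (hR : ∀ e ∈ R, ¬ e.IsDiag)
    (heven : ∀ x, Even (dg R x)) {k : ℕ} (hk : ∀ x, dg R x ≤ 2 * k) :
    ∃ E : Fin k → Finset (Sym2 V), (∀ i, TwoRegular (E i)) ∧
      (∀ i, E i ⊆ R) ∧ (∀ e ∈ R, ∃ i, e ∈ E i) ∧ ∀ i j, i ≠ j → Disjoint (E i) (E j) := by
  classical
  obtain ⟨tl, htl1, htl2⟩ := orientation hR heven
  let B : V → V → ℕ := fun u v => if s(u, v) ∈ R ∧ tl s(u, v) = u then 1 else 0
  let D : V → V → ℕ := fun u v => if u = v then k - dg R u / 2 else 0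
  have hBr : ∀ u, ∑ v, B u v = (R.filter (fun e => tl e = u)).card := by
    intro u
    rw [← card_filter]
    apply card_bij (fun v _ => s(u, v))
    · intro v hv
      simp only [mem_filter, mem_univ, true_and] at hv ⊢
      exact hv
    · intro a _ b _ hab
      exact Sym2.congr_right.1 hab
    · intro e he
      rw [mem_filter] at he
      have h1 := htl1 e he.1
      rw [he.2] at h1
      obtain ⟨v, rfl⟩ := Sym2.mem_iff_exists.1 h1
      exact ⟨v, by simpa using he, rfl⟩
  have hBc : ∀ v, ∑ u, B u v + (R.filter (fun e => tl e = v)).card = dg R v := by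
    intro v
    have h1 : ∑ u, B u v = (R.filter (fun e => v ∈ e ∧ tl e ≠ v)).card := by
      rw [← card_filter]
      apply card_bij (fun u _ => s(u, v))
      · intro u hu
        simp only [mem_filter, mem_univ, true_and] at hu ⊢
        refine ⟨hu.1, by simp, ?_⟩
        rw [hu.2]
        rintro rfl
        exact hR _ hu.1 (by simp)
      · intro a _ b _ hab
        exact Sym2.congr_left.1 hab
      · intro e he
        rw [mem_filter] at he
        obtain ⟨he1, he2, he3⟩ := he
        obtain ⟨u, rfl⟩ := Sym2.mem_iff_exists.1 he2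
        have h2 := htl1 _ he1
        rw [Sym2.mem_iff] at h2
        refine ⟨u, ?_, Sym2.eq_swap⟩
        simp only [mem_filter, mem_univ, true_and]
        rw [Sym2.eq_swap]
        exact ⟨he1, h2.resolve_left he3⟩
    rw [h1, ← card_union_of_disjoint]
    · unfold dg
      congr 1
      ext e
      simp only [mem_union, mem_filter]
      constructor
      · rintro (⟨h1, h2, _⟩ | ⟨h1, h2⟩)
        · exact ⟨h1, h2⟩
        · refine ⟨h1, ?_⟩
          have := htl1 e h1
          rwa [h2] at this
      · rintro ⟨h1, h2⟩
        by_cases h : tl e = v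
        · exact Or.inr ⟨h1, h⟩
        · exact Or.inl ⟨h1, h2, h⟩
    · rw [disjoint_filter]
      rintro e _ ⟨_, h2⟩ h3
      exact h2 h3
  obtain ⟨σ, hσ⟩ := perm_decomposition k (fun u v => B u v + D u v) (by
      intro u
      rw [sum_add_distrib, hBr]
      simp only [D, sum_ite_eq, mem_univ, if_true]
      have h1 := htl2 u
      have h2 := hk u
      omega) (by
      intro v
      rw [sum_add_distrib]
      simp only [D, sum_ite_eq', mem_univ, if_true]
      have h1 := htl2 v
      have h2 := hk v
      have h3 := hBc v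
      omega)
  -- the classes
  have hσ1 : ∀ i u, σ i u ≠ u → s(u, σ i u) ∈ R ∧ tl s(u, σ i u) = u := by
    intro i u hne
    have h1 := hσ u (σ i u)
    have h2 : 0 < (univ.filter (fun j => σ j u = σ i u)).card :=
      card_pos.2 ⟨i, by simp⟩
    have h3 : D u (σ i u) = 0 := if_neg hne.symm
    have h4 : B u (σ i u) ≠ 0 := by
      intro h
      have : B u (σ i u) + D u (σ i u) = 0 := by omega
      omega
    by_contra hcon
    exact h4 (if_neg hcon)
  refine ⟨fun i => (univ.filter (fun u => σ i u ≠ u)).image (fun u => s(u, σ i u)), ?_, ?_, ?_, ?_⟩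
  · rintro i x ⟨e, he, hxe⟩
    have hx : σ i x ≠ x := by
      rw [mem_image] at he
      obtain ⟨u, hu, rfl⟩ := he
      simp only [mem_filter, mem_univ, true_and] at hu
      rw [Sym2.mem_iff] at hxe
      rcases hxe with rfl | rfl
      · exact hu
      · intro h
        exact hu ((σ i).injective h)
    have hx' : σ i ((σ i).symm x) ≠ (σ i).symm x := by
      rw [Equiv.apply_symm_apply]
      intro h
      apply hx
      conv_lhs => rw [h, Equiv.apply_symm_apply]
    have hfil : ((univ.filter (fun u => σ i u ≠ u)).image (fun u => s(u, σ i u))).filter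
        (fun e => x ∈ e) = {s(x, σ i x), s((σ i).symm x, x)} := by
      ext e
      simp only [mem_filter, mem_image, mem_univ, true_and, mem_insert, mem_singleton]
      constructor
      · rintro ⟨⟨u, _, rfl⟩, hxu⟩
        rw [Sym2.mem_iff] at hxu
        rcases hxu with rfl | rfl
        · exact Or.inl rfl
        · right
          simp
      · rintro (rfl | rfl)
        · exact ⟨⟨x, hx, rfl⟩, by simp⟩
        · refine ⟨⟨(σ i).symm x, hx', by simp⟩, by simp⟩
    rw [hfil, card_pair]
    intro h
    have h1 := (hσ1 i x hx).2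
    have h2 := (hσ1 i _ hx').2
    rw [Equiv.apply_symm_apply] at h2
    rw [h, h2] at h1
    apply hx
    conv_lhs => rw [← h1, Equiv.apply_symm_apply]
  · intro i e he
    rw [mem_image] at he
    obtain ⟨u, hu, rfl⟩ := he
    simp only [mem_filter, mem_univ, true_and] at hu
    exact (hσ1 i u hu).1
  · intro e he
    have h1 := htl1 e he
    obtain ⟨v, hv⟩ := Sym2.mem_iff_exists.1 h1
    have hne : tl e ≠ v := by
      intro h
      apply hR e he
      rw [hv, h]
      simp
    have hB : B (tl e) v = 1 := by
      apply if_pos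
      rw [← hv]
      exact ⟨he, rfl⟩
    have h2 := hσ (tl e) v
    have h3 : D (tl e) v = 0 := if_neg hne
    have h4 : 0 < (univ.filter (fun i => σ i (tl e) = v)).card := by
      omega
    obtain ⟨i, hi⟩ := card_pos.1 h4
    simp only [mem_filter, mem_univ, true_and] at hi
    refine ⟨i, ?_⟩
    rw [mem_image]
    refine ⟨tl e, ?_, ?_⟩
    · simp only [mem_filter, mem_univ, true_and]
      rw [hi]
      exact hne.symm
    · rw [hi]
      exact hv.symm
  · intro i j hij
    rw [disjoint_left]
    intro e hi hj
    rw [mem_image] at hi hj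
    obtain ⟨u, hu, hue⟩ := hi
    obtain ⟨w, hw, hwe⟩ := hj
    simp only [mem_filter, mem_univ, true_and] at hu hw
    have h1 := (hσ1 i u hu).2
    have h2 := (hσ1 j w hw).2
    rw [hue] at h1
    rw [hwe] at h2
    have huw : u = w := h1.symm.trans h2
    subst huw
    have h3 : σ i u = σ j u := by
      have : s(u, σ i u) = s(u, σ j u) := hue.trans hwe.symm
      exact Sym2.congr_right.1 this
    have h4 := hσ u (σ i u)
    have h5 : D u (σ i u) = 0 := if_neg hu.symm
    have h6 : B u (σ i u) ≤ 1 := by
      show (if _ then 1 else 0) ≤ 1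
      split_ifs <;> omega
    have h7 : 2 ≤ (univ.filter (fun l => σ l u = σ i u)).card := by
      have : ({i, j} : Finset (Fin k)) ⊆ univ.filter (fun l => σ l u = σ i u) := by
        intro l hl
        simp only [mem_insert, mem_singleton] at hl
        simp only [mem_filter, mem_univ, true_and]
        rcases hl with rfl | rfl
        · rfl
        · exact h3.symm
      have h8 := card_le_card this
      rwa [card_pair hij] at h8
    omega

end Pool.Agent.Q255.EvenDecomp
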