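import Mathlib.Combinatorics.SimpleGraph.Metric
import Mathlib.Data.Nat.Bitwise
import Mathlib.Tactic

/-!
# Distances given by a table, and medians in sets of bit vectors
-/

namespace Pool.Agent.Q255.Median

section Dist

variable {V : Type*} {G : SimpleGraph V} {D : V → V → ℕ}

theorem dist_eq_table (hself : ∀ u, D u u = 0)
    (hlip : ∀ u w v, G.Adj u w → D u v ≤ D w v + 1)
    (hstep : ∀ u v, u ≠ v → ∃ w, G.Adj u w ∧ D w v + 1 = D u v) (u v : V) :
    G.Reachable u v ∧ G.dist u v = D u v := by
  have hwalk : ∀ n, ∀ u, D u v = n → ∃ p : G.Walk u v, p.length = n := by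
    intro n
    induction n with
    | zero =>
      intro u hu
      by_cases h : u = v
      · subst h; exact ⟨SimpleGraph.Walk.nil, rfl⟩
      · obtain ⟨w, -, hw⟩ := hstep u v h
        omega
    | succ n ih =>
      intro u hu
      have hne : u ≠ v := by
        rintro rfl
        rw [hself] at hu
        omega
      obtain ⟨w, hadj, hw⟩ := hstep u v hne
      obtain ⟨p, hp⟩ := ih w (by omega)
      exact ⟨SimpleGraph.Walk.cons hadj p, by simp [hp]⟩
  obtain ⟨p, hp⟩ := hwalk _ u rfl
  refine ⟨⟨p⟩, le_antisymm (hp ▸ SimpleGraph.dist_le p) ?_⟩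
  have hlow : ∀ (u v : V) (q : G.Walk u v), D u v ≤ q.length := by
    intro u v q
    induction q with
    | nil => simp [hself]
    | @cons u w v h q ih =>
      have h1 := hlip u w v h
      simp only [SimpleGraph.Walk.length_cons]
      omega
  have hr : G.Reachable u v := ⟨p⟩
  obtain ⟨q, hq⟩ := hr.exists_walk_length_eq_dist
  rw [← hq]
  exact hlow u v q

end Dist

/-- Hamming distance of the first `k` bits. -/
def hd (k a b : ℕ) : ℕ := ((Finset.range k).filter (fun i => a.testBit i ≠ b.testBit i)).card

/-- Bitwise majority. -/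
def maj (a b c : ℕ) : ℕ := (a &&& b) ||| ((a &&& c) ||| (b &&& c))

theorem between_iff (k a b x : ℕ) :
    hd k a x + hd k x b = hd k a b ↔
      ∀ i < k, a.testBit i = b.testBit i → x.testBit i = a.testBit i := by
  unfold hd
  have hdef : ∀ a b : ℕ, ((Finset.range k).filter (fun i => a.testBit i ≠ b.testBit i)).card =
      ∑ i ∈ Finset.range k, (if a.testBit i ≠ b.testBit i then 1 else 0) := by
    intro a b
    rw [Finset.card_filter]
  rw [hdef, hdef, hdef, ← Finset.sum_add_distrib]
  have hle : ∀ i ∈ Finset.range k, (if a.testBit i ≠ b.testBit i then 1 else 0) ≤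
      ((if a.testBit i ≠ x.testBit i then 1 else 0) +
        (if x.testBit i ≠ b.testBit i then 1 else 0) : ℕ) := by
    intro i _
    rcases a.testBit i <;> rcases b.testBit i <;> rcases x.testBit i <;> simp
  rw [eq_comm, Finset.sum_eq_sum_iff_of_le hle]
  constructor
  · intro h i hi
    have := h i (Finset.mem_range.2 hi)
    revert this
    rcases a.testBit i <;> rcases b.testBit i <;> rcases x.testBit i <;> simp
  · intro h i hi
    have := h i (Finset.mem_range.1 hi)
    revert this
    rcases a.testBit i <;> rcases b.testBit i <;> rcases x.testBit i <;> simp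

theorem maj_testBit (a b c i : ℕ) : (maj a b c).testBit i =
    ((a.testBit i && b.testBit i) || ((a.testBit i && c.testBit i) ||
      (b.testBit i && c.testBit i))) := by
  simp [maj]

theorem median_iff (k a b c x : ℕ) :
    (hd k a x + hd k x b = hd k a b ∧ hd k a x + hd k x c = hd k a c ∧
      hd k b x + hd k x c = hd k b c) ↔
      ∀ i < k, x.testBit i = (maj a b c).testBit i := by
  rw [between_iff, between_iff, between_iff]
  constructor
  · rintro ⟨h1, h2, h3⟩ i hi
    have h1 := h1 i hi
    have h2 := h2 i hi
    have h3 := h3 i hi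
    rw [maj_testBit]
    revert h1 h2 h3
    rcases a.testBit i <;> rcases b.testBit i <;> rcases c.testBit i <;>
      rcases x.testBit i <;> simp
  · intro h
    refine ⟨fun i hi => ?_, fun i hi => ?_, fun i hi => ?_⟩ <;>
    · have := h i hi
      rw [maj_testBit] at this
      revert this
      rcases a.testBit i <;> rcases b.testBit i <;> rcases c.testBit i <;>
        rcases x.testBit i <;> simp

theorem eq_of_bits {k a b : ℕ} (ha : a < 2 ^ k) (hb : b < 2 ^ k)
    (h : ∀ i < k, a.testBit i = b.testBit i) : a = b := by
  apply Nat.eq_of_testBit_eq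
  intro i
  by_cases hi : i < k
  · exact h i hi
  · have hk : 2 ^ k ≤ 2 ^ i := Nat.pow_le_pow_right (by norm_num) (by omega)
    rw [Nat.testBit_lt_two_pow (lt_of_lt_of_le ha hk),
      Nat.testBit_lt_two_pow (lt_of_lt_of_le hb hk)]

/-- If the vertices of `G` are coded by bit vectors so that distances are Hamming distances and
the code is closed under majority, all triples have exactly one median. -/
theorem unique_median {n k : ℕ} {G : SimpleGraph (Fin n)} (code : Fin n → ℕ)
    (hlt : ∀ u, code u < 2 ^ k) (hinj : Function.Injective code)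
    (hdist : ∀ u v, G.dist u v = hd k (code u) (code v))
    (hmaj : ∀ u v w, ∃ m, code m = maj (code u) (code v) (code w)) (u v w : Fin n) :
    ∃! x, (G.dist u x + G.dist x v = G.dist u v ∧ G.dist u x + G.dist x w = G.dist u w ∧
      G.dist v x + G.dist x w = G.dist v w) := by
  obtain ⟨m, hm⟩ := hmaj u v w
  refine ⟨m, ?_, ?_⟩
  · simp only [hdist]
    rw [median_iff, hm]
    intros; rfl
  · intro y hy
    simp only [hdist] at hy
    rw [median_iff] at hy
    apply hinj
    apply eq_of_bits (hlt _) (hlt _)
    intro i hi
    rw [hm]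
    exact hy i hi

end Pool.Agent.Q255.Median
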